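import Pool.Agent.Lib.MP_696deb_nt.QF.D0

/-! The quartic character, its Jacobi sum and the number of points. -/

set_option autoImplicit false

open scoped Classical Real
open Complex Finset

namespace Pool.Agent.Lib.MP_696deb_nt.QF

variable {p : ℕ} [Fact p.Prime] {z : G} {ρ : G →+* ZMod p} {χ : MulChar (ZMod p) G}

theorem f1_roots {R : Type} [CommRing R] [IsDomain R] {r u : R} (hr : r * r = -1)
    (hu : u ^ 4 = 1) : u = 1 ∨ u = -1 ∨ u = r ∨ u = -r := by
  have : (u - 1) * ((u + 1) * ((u - r) * (u + r))) = 0 := by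
    linear_combination hu - (u ^ 2 - 1) * hr
  simpa only [mul_eq_zero, sub_eq_zero, add_eq_zero_iff_eq_neg] using this

theorem f1_ii : ii * ii = -1 := by decide

/-- A fourth root of unity is determined by its residue. -/
theorem root_inj {F : Type} [Field F] (h2 : (2 : F) ≠ 0) (σ : G →+* F) {u v : G} (hu : u ^ 4 = 1)
    (hv : v ^ 4 = 1) (h : σ u = σ v) : u = v := by
  have k : u = v ∨ (u - v) ^ 4 = -2 ^ 2 ∨ (u - v) ^ 4 = 2 ^ 4 := by
    rcases f1_roots f1_ii hu with rfl | rfl | rfl | rfl <;>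
      rcases f1_roots f1_ii hv with rfl | rfl | rfl | rfl <;> decide
  rcases k with k | k | k
  · exact k
  all_goals
    have := congrArg σ k
    simp only [map_pow, map_sub, map_neg, map_ofNat, h, sub_self] at this
    exfalso
  · exact pow_ne_zero 2 h2 (by linear_combination this)
  · exact pow_ne_zero 4 h2 (by linear_combination -this)

theorem f1_char (h : p % 2 = 1) : ringChar (ZMod p) ≠ 2 := by
  rw [ZMod.ringChar_zmod_n]
  omega

theorem f1_prim (h : p % 4 = 1) :
    ∃ x y : ℤ, x ^ 2 + y ^ 2 = p ∧ y % 2 = 0 ∧ (x + y) % 4 = 1 := by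
  obtain ⟨a, b, e⟩ := Nat.Prime.sq_add_sq (p := p) (by omega)
  have e' : (a : ℤ) ^ 2 + (b : ℤ) ^ 2 = p := by exact_mod_cast e
  have k : ∀ n : ℤ, n ^ 2 % 2 = n % 2 := fun n => by
    rcases Int.emod_two_eq_zero_or_one n with h | h <;> simp [pow_two, Int.mul_emod, h]
  have ka := k a
  have kb := k b
  by_cases h1 : (b : ℤ) % 2 = 0 <;> by_cases h2 : ((a : ℤ) + b) % 4 = 1
  · exact ⟨a, b, e', h1, h2⟩
  · exact ⟨-a, -b, by linear_combination e', by omega, by omega⟩
  · exact ⟨b, a, by linear_combination e', by omega, by omega⟩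
  · exact ⟨-b, -a, by linear_combination e', by omega, by omega⟩

theorem exists_qc (h : p % 4 = 1) : ∃ z ρ χ, Qc p z ρ χ := by
  have hp : p.Prime := Fact.out
  obtain ⟨x, y, e, h1, h2⟩ := f1_prim h
  have e0 : (x : ZMod p) ^ 2 + (y : ZMod p) ^ 2 = 0 := by
    have := congrArg (Int.cast : ℤ → ZMod p) e
    simpa using this
  have hy : (y : ZMod p) ≠ 0 := fun hy => by
    have hx : (x : ZMod p) = 0 := by
      rw [hy] at e0
      simpa using e0
    obtain ⟨s, rfl⟩ := (ZMod.intCast_zmod_eq_zero_iff_dvd x p).1 hx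
    obtain ⟨t, rfl⟩ := (ZMod.intCast_zmod_eq_zero_iff_dvd y p).1 hy
    have p0 : (p : ℤ) ≠ 0 := by exact_mod_cast hp.ne_zero
    have : (p : ℤ) * (s ^ 2 + t ^ 2) = 1 := mul_left_cancel₀ p0 (by linear_combination e)
    have := Int.eq_one_of_mul_eq_one_right (by positivity) this
    exact hp.one_lt.ne' (by exact_mod_cast this)
  obtain ⟨r, hr, hx⟩ : ∃ r : ZMod p, r * r = -1 ∧ (x : ZMod p) = -(y * r) :=
    ⟨-x / y, by field_simp; linear_combination e0, by field_simp⟩
  let σ : G →+* ZMod p := Zsqrtd.lift ⟨r, by simpa using hr⟩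
  have hσ : ∀ a : G, σ a = a.re + a.im * r := fun a => rfl
  have hi : σ ii = r := by simp [hσ, ii]
  have hn : (⟨x, y⟩ : G).norm = p := by
    rw [Zsqrtd.norm_def]
    linear_combination e
  have h20 : (2 : ZMod p) ≠ 0 := Ring.two_ne_zero (f1_char (by omega))
  have ex : ∀ a : ZMod p, ∃ u : G, σ u = a ^ (p / 4) ∧ (a ≠ 0 → u ^ 4 = 1) ∧ (a = 0 → u = 0) := by
    intro a
    by_cases ha : a = 0
    · refine ⟨0, ?_, fun k => (k ha).elim, fun _ => rfl⟩
      rw [ha, map_zero, zero_pow]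
      have := hp.two_le
      omega
    have : (a ^ (p / 4)) ^ 4 = 1 := by
      rw [← pow_mul, show p / 4 * 4 = p - 1 by omega]
      exact ZMod.pow_card_sub_one_eq_one ha
    rcases f1_roots hr this with k | k | k | k
    · exact ⟨1, by rw [k, map_one], fun _ => by decide, fun k => (ha k).elim⟩
    · exact ⟨-1, by rw [k, map_neg, map_one], fun _ => by decide, fun k => (ha k).elim⟩
    · exact ⟨ii, by rw [k, hi], fun _ => by decide, fun k => (ha k).elim⟩
    · exact ⟨-ii, by rw [k, map_neg, hi], fun _ => by decide, fun k => (ha k).elim⟩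
  choose f f1 f2 f3 using ex
  refine ⟨⟨x, y⟩, σ,
    { toFun := f
      map_one' := root_inj h20 σ (f2 1 one_ne_zero) (one_pow 4) (by rw [f1, one_pow, map_one])
      map_mul' := fun a b => ?_
      map_nonunit' := fun a ha => f3 a (by simpa using ha) },
    h, ⟨h1, h2⟩, hn, fun α => ⟨fun k => ?_, ?_⟩, f1, f2⟩
  · by_cases ha : a = 0
    · rw [f3 a ha, f3 _ (by rw [ha, zero_mul]), zero_mul]
    by_cases hb : b = 0
    · rw [f3 b hb, f3 _ (by rw [hb, mul_zero]), mul_zero]
    refine root_inj h20 σ (f2 _ (mul_ne_zero ha hb)) ?_ ?_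
    · rw [mul_pow, f2 a ha, f2 b hb, one_mul]
    · rw [map_mul, f1, f1, f1, mul_pow]
  · rw [hσ] at k
    have hz : star (⟨x, y⟩ : G) ≠ 0 := fun k => by
      rw [star_eq_zero.1 k, Zsqrtd.norm_zero] at hn
      exact hp.ne_zero (by exact_mod_cast hn.symm)
    rw [← mul_dvd_mul_iff_right hz, ← Zsqrtd.norm_eq_mul_conj, hn, Zsqrtd.intCast_dvd]
    constructor <;> rw [← ZMod.intCast_zmod_eq_zero_iff_dvd] <;> simp [hx]
    · linear_combination -(y * r) * k + α.im * y * hr
    · linear_combination -y * k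
  · rintro ⟨c, rfl⟩
    rw [map_mul, hσ ⟨x, y⟩]
    simp [hx]

theorem Qc.two_ne (h : Qc p z ρ χ) : (2 : ZMod p) ≠ 0 :=
  Ring.two_ne_zero (f1_char (by have := h.mod; omega))

theorem Qc.sq (h : Qc p z ρ χ) (x : ZMod p) : χ x ^ 2 = (quadraticChar (ZMod p) x : G) := by
  have hm := h.mod
  by_cases hx : x = 0
  · simp [hx, MulChar.map_zero]
  refine root_inj h.two_ne ρ ?_ ?_ ?_
  · rw [← pow_mul, mul_comm, pow_mul, h.four x hx, one_pow]
  · rcases quadraticChar_dichotomy hx with k | k <;> rw [k] <;> decide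
  · rw [map_pow, h.spec, map_intCast, quadraticChar_eq_pow_of_char_ne_two' (f1_char (by omega)),
      ZMod.card, ← pow_mul]
    congr 1
    omega

theorem Qc.sq_ne (h : Qc p z ρ χ) : χ ^ 2 ≠ 1 := fun k => by
  have hm := h.mod
  obtain ⟨a, ha⟩ := quadraticChar_exists_neg_one' (F := ZMod p) (f1_char (by omega))
  have := h.sq a
  rw [← MulChar.pow_apply' χ two_ne_zero, k, MulChar.one_apply a.isUnit, ha] at this
  exact absurd this (by decide)

theorem Qc.cube (h : Qc p z ρ χ) (x : ZMod p) : χ x ^ 3 = star (χ x) := by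
  by_cases hx : x = 0
  · simp [hx, MulChar.map_zero]
  rcases f1_roots f1_ii (h.four x hx) with k | k | k | k <;> rw [k] <;> decide

theorem Qc.inv (h : Qc p z ρ χ) (x : ZMod p) : χ⁻¹ x = star (χ x) := by
  by_cases hx : x = 0
  · simp [hx, MulChar.map_zero]
  have k : χ x⁻¹ * χ x = 1 := by rw [← map_mul, inv_mul_cancel₀ hx, map_one]
  rw [MulChar.inv_apply', ← h.cube]
  linear_combination χ x ^ 3 * k - χ x⁻¹ * h.four x hx

theorem Qc.ne_one (h : Qc p z ρ χ) : χ ≠ 1 := fun k => h.sq_ne (by rw [k, one_pow])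

theorem Qc.jac_norm (h : Qc p z ρ χ) : (jacobiSum χ (χ ^ 2)).norm = p := by
  have hp : p.Prime := Fact.out
  have inj := GaussianInt.toComplex_injective
  have h3 : χ * χ ^ 2 ≠ 1 := fun k => h.ne_one (MulChar.ext fun a => by
    have := congrArg (fun c : MulChar (ZMod p) G => c a) k
    simp only [MulChar.mul_apply, MulChar.pow_apply' χ two_ne_zero, MulChar.one_apply_coe] at this
    rw [MulChar.one_apply_coe]
    linear_combination h.four a a.ne_zero - χ a * this)
  have e : star (jacobiSum χ (χ ^ 2)) = jacobiSum χ⁻¹ (χ ^ 2)⁻¹ := by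
    simp only [jacobiSum, star_sum, star_mul', ← inv_pow, MulChar.pow_apply' _ two_ne_zero,
      star_pow, h.inv]
  have k := jacobiSum_mul_jacobiSum_inv (F := ZMod p) (F' := ℂ)
    (by rw [ZMod.ringChar_zmod_n, ringChar.eq_zero]; exact hp.ne_zero.symm)
    ((MulChar.ringHomComp_ne_one_iff inj).2 h.ne_one)
    ((MulChar.ringHomComp_ne_one_iff inj).2 h.sq_ne)
    (by rw [← MulChar.ringHomComp_mul]; exact (MulChar.ringHomComp_ne_one_iff inj).2 h3)
  rw [MulChar.ringHomComp_inv, MulChar.ringHomComp_inv, jacobiSum_ringHomComp,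
    jacobiSum_ringHomComp, ← map_mul, ← e, ← Zsqrtd.norm_eq_mul_conj, ZMod.card, map_intCast] at k
  exact_mod_cast k

theorem Qc.jac_res (h : Qc p z ρ χ) : ρ (jacobiSum χ (χ ^ 2)) = 0 := by
  have hp : p.Prime := Fact.out
  have hm := h.mod
  have h2 := hp.two_le
  simp only [jacobiSum, map_sum, map_mul, MulChar.pow_apply' _ two_ne_zero, map_pow, h.spec,
    ← pow_mul]
  simp only [sub_eq_neg_add, add_pow, mul_sum]
  rw [sum_comm]
  refine sum_eq_zero fun m hm' => ?_
  have := FiniteField.sum_pow_lt_card_sub_one (K := ZMod p) (p / 4 + m)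
    (by rw [ZMod.card]; have := mem_range.1 hm'; omega)
  calc _ = ∑ x : ZMod p, (-1) ^ m * ((p / 4 * 2).choose m : ZMod p) * x ^ (p / 4 + m) :=
        sum_congr rfl fun x _ => by rw [neg_pow x]; ring
    _ = 0 := by rw [← mul_sum, this, mul_zero]

theorem Qc.jac_two (h : Qc p z ρ χ) : (⟨2, 2⟩ : G) ∣ jacobiSum χ (χ ^ 2) + p := by
  have e : jacobiSum χ (χ ^ 2) + p = ∑ v : ZMod p, (χ v - 1) * ((χ ^ 2) (1 - v) - 1) := by
    have a1 := MulChar.sum_eq_zero_of_ne_one h.ne_one
    have a2 : ∑ v : ZMod p, (χ ^ 2) (1 - v) = 0 :=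
      (Equiv.sum_comp (Equiv.subLeft (1 : ZMod p)) fun v => (χ ^ 2) v).trans
        (MulChar.sum_eq_zero_of_ne_one h.sq_ne)
    simp only [sub_mul, mul_sub, sum_sub_distrib, mul_one, one_mul, a1, a2, jacobiSum, sum_const,
      card_univ, ZMod.card, nsmul_eq_mul]
    ring
  rw [e]
  refine dvd_sum fun v _ => ?_
  by_cases h0 : v = 0
  · simp [h0]
  by_cases h1 : 1 - v = 0
  · simp [← sub_eq_zero.1 h1]
  rw [MulChar.pow_apply' _ two_ne_zero, h.sq]
  rcases quadraticChar_dichotomy h1 with k | k <;> rw [k]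
  · simp
  rcases f1_roots f1_ii (h.four v h0) with k | k | k | k <;> rw [k]
  · simp
  · exact ⟨1 - ii, by decide⟩
  · exact ⟨-ii, by decide⟩
  · exact ⟨1, by decide⟩

theorem Qc.jac (h : Qc p z ρ χ) : jacobiSum χ (χ ^ 2) = -z := by
  have hp : p.Prime := Fact.out
  obtain ⟨⟨a, b⟩, e⟩ := (h.ker _).1 h.jac_res
  have n := h.jac_norm
  obtain ⟨⟨s, t⟩, k⟩ := h.jac_two
  have p0 : (p : ℤ) ≠ 0 := by exact_mod_cast hp.ne_zero
  rw [e, Zsqrtd.norm_mul, h.norm, mul_eq_left₀ p0, Zsqrtd.norm_def] at n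
  rw [e] at k ⊢
  obtain ⟨h1, h2⟩ := h.prim
  have hm := h.mod
  have k1 := congrArg Zsqrtd.re k
  have k2 := congrArg Zsqrtd.im k
  simp only at n
  have a1 : a ≤ 1 := by nlinarith [mul_self_nonneg b]
  have a2 : -1 ≤ a := by nlinarith [mul_self_nonneg b]
  have b1 : b ≤ 1 := by nlinarith [mul_self_nonneg a]
  have b2 : -1 ≤ b := by nlinarith [mul_self_nonneg a]
  interval_cases a <;> interval_cases b <;> simp at n k1 k2 <;> first | omega | (ext <;> simp)

theorem f1_cnt (h : p % 2 = 1) (D : ℤ) :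
    (cnt D p : ℤ) = p + ∑ x : ZMod p, quadraticChar (ZMod p) (x * (x ^ 2 - D)) := by
  have e : ∀ x : ZMod p, x ^ 3 + ((-D : ℤ) : ZMod p) * x + ((0 : ℤ) : ZMod p) = x * (x ^ 2 - D) :=
    fun x => by push_cast; ring
  simp only [cnt, e]
  rw [Nat.card_eq_fintype_card, Fintype.card_subtype, card_filter, Fintype.sum_prod_type]
  push_cast
  have k : ∀ a : ZMod p, (∑ y : ZMod p, if y ^ 2 = a then 1 else 0 : ℤ) =
      quadraticChar (ZMod p) a + 1 := fun a => by
    rw [← quadraticChar_card_sqrts (f1_char h), sum_boole]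
    simp
  simp only [k, sum_add_distrib, sum_const, card_univ, ZMod.card, nsmul_eq_mul, mul_one]
  ring

theorem f1_sum_sq (h : p % 2 = 1) (F : ZMod p → G) :
    ∑ x, F (x ^ 2) = ∑ u, ((quadraticChar (ZMod p) u : G) + 1) * F u := by
  rw [← sum_fiberwise' univ (fun x : ZMod p => x ^ 2) F]
  refine sum_congr rfl fun u _ => ?_
  have := congrArg (Int.cast : ℤ → G) (quadraticChar_card_sqrts (f1_char h) u)
  push_cast at this
  rw [sum_const, nsmul_eq_mul, ← this]
  simp

theorem Qc.count (h : Qc p z ρ χ) {D : ℤ} (hD : ¬ (p : ℤ) ∣ D) :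
    (((p : ℤ) - cnt D p : ℤ) : G) = star (χ D) * z + χ D * star z := by
  have hm : p % 2 = 1 := by have := h.mod; omega
  have D0 : (D : ZMod p) ≠ 0 := fun k => hD ((ZMod.intCast_zmod_eq_zero_iff_dvd D p).1 k)
  have e : ∑ u, χ u * χ (u - D) ^ 2 = star (χ D) * -z := by
    rw [← h.jac, ← h.cube, ← Equiv.sum_comp (Equiv.mulLeft₀ _ D0), jacobiSum, mul_sum]
    refine sum_congr rfl fun v _ => ?_
    have m : χ (-1) ^ 2 = 1 := by rw [← map_pow, neg_one_sq, map_one]
    rw [Equiv.mulLeft₀_apply, show (D : ZMod p) * v - D = -1 * (D * (1 - v)) by ring,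
      MulChar.pow_apply' _ two_ne_zero]
    simp only [map_mul, mul_pow, m]
    ring
  have e' := congrArg star e
  simp only [star_sum, star_mul', star_star, star_neg, h.sq, star_intCast] at e'
  rw [f1_cnt hm]
  push_cast
  have k := f1_sum_sq hm fun u => χ u * χ (u - D) ^ 2
  have k1 : ∀ x : ZMod p, (quadraticChar (ZMod p) (x * (x ^ 2 - D)) : G) =
      χ (x ^ 2) * χ (x ^ 2 - D) ^ 2 := fun x => by
    rw [← h.sq, map_mul, map_pow, mul_pow]
  have k2 : ∀ u : ZMod p, ((quadraticChar (ZMod p) u : G) + 1) * (χ u * χ (u - D) ^ 2) =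
      star (χ u) * (quadraticChar (ZMod p) (u - D) : G) + χ u * χ (u - D) ^ 2 := fun u => by
    rw [← h.sq, ← h.sq, ← h.cube]
    ring
  simp only [k2, sum_add_distrib, e, e'] at k
  simp only [k1, k]
  ring

theorem count_three (h : p % 4 = 3) (D : ℤ) : cnt D p = p := by
  have m : quadraticChar (ZMod p) (-1) = -1 :=
    quadraticChar_neg_one_iff_not_isSquare.2 fun k => ZMod.exists_sq_eq_neg_one_iff.1 k h
  have e := Equiv.sum_comp (Equiv.neg (ZMod p)) fun x => quadraticChar (ZMod p) (x * (x ^ 2 - D))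
  have k : ∀ x : ZMod p, quadraticChar (ZMod p) (Equiv.neg _ x * (Equiv.neg _ x ^ 2 - D)) =
      -quadraticChar (ZMod p) (x * (x ^ 2 - D)) := fun x => by
    rw [Equiv.neg_apply, show -x * ((-x) ^ 2 - D) = -1 * (x * (x ^ 2 - D)) by ring, map_mul, m,
      neg_one_mul]
  simp only [k, sum_neg_distrib] at e
  have := f1_cnt (p := p) (by omega) D
  omega

end Pool.Agent.Lib.MP_696deb_nt.QF
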