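import Pool.Agent.Lib.MP_696deb_nt.QF.F6

/-! The Mellin transform of the theta series. -/

set_option autoImplicit false

open scoped Classical Real
open Complex Finset

namespace Pool.Agent.Lib.MP_696deb_nt.QF

theorem f7_le (f : G → ℂ) {s t : ℝ} (h : s ≤ t) (α : G) :
    ‖f α * (α : ℂ) * (Real.exp (-π * t * (α.norm : ℝ)) : ℝ)‖ ≤
      ‖f α * (α : ℂ) * (Real.exp (-π * s * (α.norm : ℝ)) : ℝ)‖ * Real.exp (-π * (t - s)) := by
  rcases eq_or_ne α 0 with rfl | h0
  · simp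
  have h1 : (1 : ℝ) ≤ α.norm := by exact_mod_cast GaussianInt.norm_pos.2 h0
  rw [norm_mul _ (ofReal _), norm_mul _ (ofReal _), norm_real, norm_real,
    Real.norm_of_nonneg (Real.exp_pos _).le, Real.norm_of_nonneg (Real.exp_pos _).le,
    mul_assoc ‖_‖, ← Real.exp_add]
  refine mul_le_mul_of_nonneg_left (Real.exp_le_exp.2 ?_) (norm_nonneg _)
  nlinarith [mul_nonneg (mul_nonneg Real.pi_pos.le (sub_nonneg.2 h)) (sub_nonneg.2 h1)]

theorem f7_bound {f : G → ℂ} (bd : ∀ α, ‖f α‖ ≤ 1) {s t : ℝ} (hs : 0 < s) (h : s ≤ t) :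
    ‖th f t‖ ≤ (∑' α : G, ‖f α * (α : ℂ) * (Real.exp (-π * s * (α.norm : ℝ)) : ℝ)‖) *
      Real.exp (-π * (t - s)) :=
  tsum_of_norm_bounded ((summable_th bd hs).hasSum.mul_right _) (f7_le f h)

theorem f7_cont {f : G → ℂ} (bd : ∀ α, ‖f α‖ ≤ 1) : ContinuousOn (th f) (Set.Ioi 0) := by
  intro t ht
  have h : (0 : ℝ) < t / 2 := half_pos ht
  refine (ContinuousOn.continuousAt (s := Set.Ioi (t / 2)) (continuousOn_tsum (fun α => by fun_prop)
    (summable_th bd h) fun α x hx => (f7_le f (le_of_lt hx) α).trans ?_)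
    (Ioi_mem_nhds (half_lt_self ht))).continuousWithinAt
  refine mul_le_of_le_one_right (norm_nonneg _) (Real.exp_le_one_iff.2 ?_)
  nlinarith [mul_pos Real.pi_pos (sub_pos.2 (show t / 2 < x from hx))]

theorem f7_sum {f : G → ℂ} (bd : ∀ α, ‖f α‖ ≤ 1) {l σ : ℝ} (hl : 0 < l) (hσ : 3 / 2 < σ) :
    Summable fun α : G => ‖f α * (α : ℂ)‖ / (l * (α.norm : ℝ)) ^ σ := by
  have h := ((EisensteinSeries.summable_one_div_norm_rpow (k := 2 * σ - 1) (by linarith)).comp_injective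
    (i := fun α : G => ![α.re, α.im]) fun a b e =>
      Zsqrtd.ext (congrFun e 0) (congrFun e 1)).mul_left (l ^ σ)⁻¹
  refine .of_nonneg_of_le (fun α => div_nonneg (norm_nonneg _) (Real.rpow_nonneg (mul_nonneg hl.le
    (by exact_mod_cast GaussianInt.norm_nonneg α)) _)) (fun α => ?_) h
  rcases eq_or_ne α 0 with rfl | h0
  · simp only [map_zero, mul_zero, norm_zero, zero_div]
    exact mul_nonneg (by positivity) (Real.rpow_nonneg (norm_nonneg _) _)
  have h1 : 0 < ‖![α.re, α.im]‖ := norm_pos_iff.2 fun e =>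
    h0 (Zsqrtd.ext (congrFun e 0) (congrFun e 1))
  have h2 : ‖![α.re, α.im]‖ ≤ ‖(α : ℂ)‖ := (pi_norm_le_iff_of_nonneg (norm_nonneg _)).2 fun i => by
    fin_cases i
    · exact le_of_eq_of_le (congrArg abs (GaussianInt.intCast_re α)) (abs_re_le_norm (α : ℂ))
    · exact le_of_eq_of_le (congrArg abs (GaussianInt.intCast_im α)) (abs_im_le_norm (α : ℂ))
  have h3 := h1.trans_le h2
  have h4 : (α.norm : ℝ) = ‖(α : ℂ)‖ ^ (2 : ℝ) := by
    rw [GaussianInt.intCast_real_norm, Real.rpow_two, Complex.sq_norm]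
  rw [h4, Real.mul_rpow hl.le (by positivity), ← Real.rpow_mul h3.le, div_eq_mul_inv, mul_inv,
    mul_left_comm]
  refine mul_le_mul_of_nonneg_left ?_ (by positivity)
  refine le_trans ?_ (Real.rpow_le_rpow_of_nonpos h1 h2 (by linarith))
  rw [neg_sub, Real.rpow_sub h3, Real.rpow_one, div_eq_mul_inv, norm_mul]
  exact mul_le_mul_of_nonneg_right (mul_le_of_le_one_left h3.le (bd α)) (by positivity)

theorem analytic {f : G → ℂ} (bd : ∀ α, ‖f α‖ ≤ 1) {l : ℝ} (hl : 0 < l) {w : ℂ} (hw : w ≠ 0)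
    (fe : ∀ t : ℝ, 0 < t → th f (l / t) = w * t ^ 2 * th f (l * t)) {a : ℕ → ℂ}
    (ha : ∀ n, ∑ α ∈ reps n, f α * (α : ℂ) = 4 * a n) :
    ∃ L : ℂ → ℂ, Differentiable ℂ L ∧
      (∀ s : ℂ, (3 : ℝ) / 2 < s.re → LSeriesSummable a s ∧ L s = LSeries a s) ∧
      (w = -1 → L 1 = 0) := by
  have hi : MeasureTheory.LocallyIntegrableOn (fun t => th f (l * t)) (Set.Ioi 0) :=
    ((f7_cont bd).comp (by fun_prop) fun t ht => mul_pos hl ht).locallyIntegrableOn
      measurableSet_Ioi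
  have ht (r : ℝ) : (fun t => th f (l * t) - 0) =O[Filter.atTop] (· ^ r) := by
    refine Asymptotics.IsBigO.trans ?_
      (isLittleO_exp_neg_mul_rpow_atTop (mul_pos Real.pi_pos hl) r).isBigO
    refine .of_bound ((∑' α : G, ‖f α * (α : ℂ) * (Real.exp (-π * l * (α.norm : ℝ)) : ℝ)‖) *
      Real.exp (π * l)) ((Filter.eventually_ge_atTop 1).mono fun t h => ?_)
    rw [sub_zero, Real.norm_of_nonneg (Real.exp_pos _).le, mul_assoc, ← Real.exp_add]
    convert f7_bound bd hl (le_mul_of_one_le_right hl.le h) using 3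
    ring
  let P : WeakFEPair ℂ := ⟨fun t => th f (l * t), fun t => th f (l * t), 2, w, 0, 0, hi, hi,
    two_pos, hw, fun x hx => by
      rw [mul_one_div, fe x hx, Real.rpow_two, ofReal_pow, smul_eq_mul], ht, ht⟩
  have hP : IsStrongFEPair P := ⟨rfl, rfl⟩
  have l0 : (l : ℂ) ≠ 0 := ofReal_ne_zero.2 hl.ne'
  have p0 : (π : ℂ) ≠ 0 := ofReal_ne_zero.2 Real.pi_ne_zero
  refine ⟨fun s => π ^ s * l ^ s * (Gamma s)⁻¹ / 4 * P.Λ s,
    ((((differentiable_id.const_cpow (.inl p0)).mul (differentiable_id.const_cpow (.inl l0))).mul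
      differentiable_one_div_Gamma).div_const 4).mul hP.differentiable_Λ, fun s hs => ?_,
    fun h => ?_⟩
  · have s0 : 0 < s.re := by linarith
    have : Countable G := Function.Injective.countable (f := fun α : G => (α.re, α.im))
      fun a b e => Zsqrtd.ext (congrArg Prod.fst e) (congrArg Prod.snd e)
    have h1 := ((hasSum_mellin_pi_mul (a := fun α : G => f α * (α : ℂ))
      (q := fun α => l * (α.norm : ℝ)) (F := P.f) (fun α => (eq_or_ne α 0).imp
        (fun e => by simp [e]) fun e => mul_pos hl (by exact_mod_cast GaussianInt.norm_pos.2 e))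
      s0 (fun t ht => (summable_th bd (mul_pos hl ht)).of_norm.hasSum.congr_fun fun α => by
        congr 3
        ring) (f7_sum bd hl hs)).mul_left
      (π ^ s * l ^ s * (Gamma s)⁻¹ / 4)).tsum_fiberwise fun α => α.norm.toNat
    have h2 : LSeriesHasSum a s (π ^ s * l ^ s * (Gamma s)⁻¹ / 4 * P.Λ s) := by
      rw [hP.Λ_eq]
      refine h1.congr_fun fun n => ?_
      have e : (fun α : G => α.norm.toNat) ⁻¹' {n} = (reps n : Set G) := by
        ext α
        have := GaussianInt.norm_nonneg α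
        simp only [Set.mem_preimage, Set.mem_singleton_iff, mem_coe, mem_reps]
        omega
      have g0 := Gamma_ne_zero_of_re_pos s0
      have k : ∀ α ∈ reps n, π ^ s * l ^ s * (Gamma s)⁻¹ / 4 * (π ^ (-s) * Gamma s * (f α * (α : ℂ)) /
          ((l * (α.norm : ℝ) : ℝ) : ℂ) ^ s) = f α * (α : ℂ) / 4 / n ^ s := fun α hα => by
        have := cpow_ne_zero_iff.2 (.inl p0 : _ ∨ s = 0)
        have := cpow_ne_zero_iff.2 (.inl l0 : _ ∨ s = 0)
        rw [mem_reps.1 hα, ofReal_mul, mul_cpow_ofReal_nonneg hl.le (by positivity), cpow_neg]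
        push_cast
        field_simp
      rw [e, Finset.tsum_subtype' (reps n) fun α : G => π ^ s * l ^ s * (Gamma s)⁻¹ / 4 *
        (π ^ (-s) * Gamma s * (f α * (α : ℂ)) / ((l * (α.norm : ℝ) : ℝ) : ℂ) ^ s), sum_congr rfl k,
        ← sum_div, ← sum_div, ha, mul_div_cancel_left₀ _ (by norm_num : (4 : ℂ) ≠ 0)]
      rcases eq_or_ne n 0 with rfl | n0
      · simp [ne_zero_of_re_pos s0]
      · exact LSeries.term_of_ne_zero n0 _ _
    exact ⟨h2.LSeriesSummable, h2.LSeries_eq.symm⟩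
  · have h1 := P.functional_equation 1
    rw [hP.symm_Λ_eq, show ((P.k : ℝ) : ℂ) - 1 = 1 by simp only [P]; norm_num] at h1
    have h2 : P.Λ 1 = -P.Λ 1 := by
      rw [hP.Λ_eq] at h1 ⊢
      simpa [P, h] using h1
    exact mul_eq_zero_of_right _ (self_eq_neg.1 h2)

end Pool.Agent.Lib.MP_696deb_nt.QF
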