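import Mathlib

/-! Definitions for the Hecke characters of the curves `y ^ 2 = x ^ 3 - D x`. -/

set_option autoImplicit false

open scoped Real
open Complex Finset

namespace Pool.Agent.Lib.MP_696deb_nt.QF

/-- Gaussian integers. -/
abbrev G : Type := GaussianInt

/-- The imaginary unit. -/
def ii : G := ⟨0, 1⟩

/-- Powers of the imaginary unit. -/
def ip (k : ZMod 4) : G := ii ^ k.val

theorem ip_add : ∀ a b : ZMod 4, ip (a + b) = ip a * ip b := by decide

theorem ip_zero : ip 0 = 1 := by decide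

theorem ip_neg : ∀ a : ZMod 4, ip (-a) = star (ip a) := by decide

theorem ip_four : ∀ a : ZMod 4, ip a ^ 4 = 1 := by decide

theorem ip_inj : ∀ a b : ZMod 4, ip a = ip b → a = b := by decide

/-- Primary elements. -/
def Prim (α : G) : Prop := α.im % 2 = 0 ∧ (α.re + α.im) % 4 = 1

/-- The elements of given norm. -/
noncomputable def reps (n : ℕ) : Finset G :=
  ((Icc (-(n : ℤ)) n ×ˢ Icc (-(n : ℤ)) n).image fun x => (⟨x.1, x.2⟩ : G)).filter
    fun α => α.norm = n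

theorem mem_reps {n : ℕ} {α : G} : α ∈ reps n ↔ α.norm = n := by
  refine mem_filter.trans ⟨fun h => h.2, fun h => ⟨mem_image.2 ⟨(α.re, α.im), ?_, rfl⟩, h⟩⟩
  rw [Zsqrtd.norm_def] at h
  simp only [mem_product, mem_Icc]
  refine ⟨⟨?_, ?_⟩, ?_, ?_⟩ <;> nlinarith [sq_nonneg (α.re + 1), sq_nonneg (α.re - 1),
    sq_nonneg (α.im + 1), sq_nonneg (α.im - 1), sq_nonneg α.re, sq_nonneg α.im,
    Int.le_self_sq α.re, Int.le_self_sq α.im, Int.le_self_sq (-α.re), Int.le_self_sq (-α.im)]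

/-- Periodic functions. -/
def Per {β : Type} (M : ℕ) (f : G → β) : Prop := ∀ α γ : G, f (α + M * γ) = f α

/-- The finite Fourier transform. -/
noncomputable def FT (M : ℕ) (f : G → ℂ) (ξ : G) : ℂ :=
  ∑ x ∈ range M, ∑ y ∈ range M,
    f ⟨x, y⟩ * cexp (2 * π * I * ((x * ξ.re + y * ξ.im : ℤ) : ℂ) / M)

/-- Self-dual functions with root number `w`. -/
structure SD (M : ℕ) (f : G → ℂ) (ν : G) (w : ℂ) : Prop where
  zero : ∀ ξ, ¬ ν ∣ ξ → FT M f ξ = 0
  eq : ∀ η, FT M f (ν * η) = I * w * M * ((star ν : G) : ℂ) * f η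

/-- The theta series of weight two. -/
noncomputable def th (f : G → ℂ) (t : ℝ) : ℂ :=
  ∑' α : G, f α * (α : ℂ) * (Real.exp (-π * t * (α.norm : ℝ)) : ℝ)

/-- The prime discriminant. -/
def qs (q : ℕ) : ℤ := if q % 4 = 1 then q else -q

/-- The quartic character modulo a rational prime that is trivial on integers. -/
structure IsX (q : ℕ) (X : G → G) : Prop where
  mul : ∀ α β, X (α * β) = X α * X β
  per : Per q X
  zero : ∀ α, (q : ℤ) ∣ α.norm → X α = 0
  four : ∀ α, ¬ (q : ℤ) ∣ α.norm → X α ^ 4 = 1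
  conj : ∀ α, X (star α) = star (X α)
  int : ∀ n : ℤ, ¬ (q : ℤ) ∣ n → X n = 1
  one_add : X (1 + ii) = ip (((qs q - 1) / 4 : ℤ) : ZMod 4)
  spec1 : q % 4 = 1 → ∀ α, ¬ (q : ℤ) ∣ α.norm → (q : G) ∣ α ^ (q / 4) - X α * star α ^ (q / 4)
  spec3 : q % 4 = 3 → ∀ α, ¬ (q : ℤ) ∣ α.norm →
    (q : G) ∣ star α ^ (q / 4 + 1) - X α * α ^ (q / 4 + 1)
  ne : ∃ α, ¬ (q : ℤ) ∣ α.norm ∧ X α ≠ 1

/-- The quartic residue character of a primary prime of degree one. -/
structure Qc (p : ℕ) [Fact p.Prime] (z : G) (ρ : G →+* ZMod p) (χ : MulChar (ZMod p) G) : Prop where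
  mod : p % 4 = 1
  prim : Prim z
  norm : z.norm = p
  ker : ∀ α, ρ α = 0 ↔ z ∣ α
  spec : ∀ x, ρ (χ x) = x ^ (p / 4)
  four : ∀ x, x ≠ 0 → χ x ^ 4 = 1

/-- The exponent of the unit part of an odd element. -/
def lj (x y : ZMod 8) : ZMod 4 :=
  if y.val % 2 = 0 then (if (x + y).val % 4 = 1 then 0 else 2)
  else if (y - x).val % 4 = 1 then 1 else 3

/-- Half of the imaginary part of the primary associate. -/
def lh (x y : ZMod 8) : ZMod 4 :=
  if y.val % 2 = 0 then (if (x + y).val % 4 = 1 then (y.val / 2 : ℕ) else -(y.val / 2 : ℕ))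
  else if (y - x).val % 4 = 1 then -(x.val / 2 : ℕ) else (x.val / 2 : ℕ)

/-- The component at two on residues. -/
def ph8 (κ K : ZMod 4) (x y : ZMod 8) : G :=
  if (x + y).val % 2 = 0 then 0 else ip ((2 * K - 1) * lj x y + κ * lh x y)

/-- The component at two. -/
def ph2 (κ K : ZMod 4) (α : G) : G := ph8 κ K α.re α.im

/-- The part of `D` at two and at minus one. -/
def ck (κ : ZMod 4) : ℤ := if κ = 0 then 1 else if κ = 1 then 2 else if κ = 2 then -1 else -2

/-- The quotient of eight by the conductor at two. -/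
def nu (κ : ZMod 4) : G := if κ = 0 then ⟨2, 2⟩ else if κ = 2 then 2 else 1

/-- The exponent of the local root number at two. -/
def e0 (κ K : ZMod 4) : ZMod 4 :=
  if κ = 0 then K * K else if κ = 1 then 2 + 2 * K else if κ = 2 then 0 else 2 * K

/-- The finite part of a Hecke character of infinity type one. -/
structure Gch (M : ℤ) (φ : G → G) : Prop where
  one : φ 1 = 1
  mul : ∀ α β, φ (α * β) = φ α * φ β
  unit : φ ii * ii = 1
  conj : ∀ α, φ (star α) = star (φ α)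
  zero : ∀ p : ℕ, p.Prime → (p : ℤ) ∣ M → ∀ α, (p : ℤ) ∣ α.norm → φ α = 0
  two : (2 : ℤ) ∣ M
  int : ∀ p : ℕ, p.Prime → ¬ (p : ℤ) ∣ M → φ p * p = (qs p : ℤ)
  bd : ∀ α, (φ α).norm ≤ 1

/-- The number of affine points modulo `p`. -/
noncomputable def cnt (D : ℤ) (p : ℕ) : ℕ := Nat.card {q : ZMod p × ZMod p //
  q.2 ^ 2 = q.1 ^ 3 + ((-D : ℤ) : ZMod p) * q.1 + ((0 : ℤ) : ZMod p)}

end Pool.Agent.Lib.MP_696deb_nt.QF
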