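import Pool.Agent.Lib.MP_696deb_nt.QF.F1

/-! The supplements. -/

set_option autoImplicit false

open scoped Classical Real
open Complex Finset

namespace Pool.Agent.Lib.MP_696deb_nt.QF

variable {p : ℕ} [Fact p.Prime] {z : G} {ρ : G →+* ZMod p} {χ : MulChar (ZMod p) G}

theorem f2b_ip_nat (n : ℕ) : ip (n : ZMod 4) = ii ^ n := by
  induction n with
  | zero => exact ip_zero
  | succ n k =>
    have e : ip 1 = ii := by decide
    rw [Nat.cast_succ, ip_add, k, e, pow_succ]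

theorem f2b_ip_two (t : ℤ) : ip (2 * (t : ZMod 4)) = if t % 2 = 0 then 1 else -1 := by
  have e : ∀ s : ZMod 4, ip (2 * (2 * s)) = 1 ∧ ip (2 * (2 * s + 1)) = -1 := by decide
  rcases Int.even_or_odd' t with ⟨s, rfl | rfl⟩
  · rw [if_pos (by omega)]; push_cast; exact (e _).1
  · rw [if_neg (by omega)]; push_cast; exact (e _).2

theorem f2b_recip {q : ℕ} (hq : q % 4 = 1) {n : ℤ} (hn : n % 2 = 1) :
    jacobiSym n q = jacobiSym q n.natAbs := by
  have k : Odd n.natAbs := by rw [Nat.odd_iff]; omega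
  rw [← jacobiSym.quadratic_reciprocity_one_mod_four' k hq]
  rcases Int.natAbs_eq n with e | e
  · rw [← e]
  · conv_lhs => rw [e]
    rw [jacobiSym.neg _ (by rw [Nat.odd_iff]; omega), ZMod.χ₄_nat_one_mod_four hq, one_mul]

theorem f2b_sq {x y n : ℤ} (h : IsCoprime y x) (k : x ∣ n - y ^ 2) : jacobiSym n x.natAbs = 1 := by
  have e : jacobiSym n x.natAbs = jacobiSym (y ^ 2) x.natAbs := by
    refine jacobiSym.mod_left' ?_
    rw [Int.natCast_natAbs]
    exact (Int.ModEq.symm (Int.modEq_iff_dvd.2 (by rwa [abs_dvd])))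
  rw [e]
  refine jacobiSym.sq_one' ?_
  have := Int.isCoprime_iff_gcd_eq_one.1 h
  rwa [Int.gcd, Int.natAbs_natCast]

theorem Qc.f2b_two_ne (h : Qc p z ρ χ) : (2 : ZMod p) ≠ 0 := by
  intro k
  have k' : ((2 : ℕ) : ZMod p) = 0 := by exact_mod_cast k
  have := Nat.le_of_dvd (by norm_num) ((ZMod.natCast_eq_zero_iff 2 p).1 k')
  have := h.mod
  have := (Fact.out : p.Prime).two_le
  omega

theorem Qc.f2b_data (h : Qc p z ρ χ) : ∃ t u : ℤ, z.im = 2 * u ∧ z.re = 4 * t + 1 - 2 * u ∧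
    ((p / 4 : ℕ) : ℤ) = (2 * t - u) ^ 2 + (2 * t - u) + u ^ 2 := by
  obtain ⟨h1, h2⟩ := h.prim
  have h3 := h.norm
  have h4 := h.mod
  rw [Zsqrtd.norm_def] at h3
  refine ⟨(z.re + z.im) / 4, z.im / 2, by omega, by omega, ?_⟩
  obtain ⟨u, hu⟩ : ∃ u, z.im = 2 * u := ⟨z.im / 2, by omega⟩
  obtain ⟨t, ht⟩ : ∃ t, z.re = 4 * t + 1 - 2 * u := ⟨(z.re + z.im) / 4, by omega⟩
  have e1 : (z.re + z.im) / 4 = t := by omega
  have e2 : z.im / 2 = u := by omega
  have e3 : (p : ℤ) = 4 * ((p / 4 : ℕ) : ℤ) + 1 := by omega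
  rw [e1, e2]
  rw [hu, ht, e3] at h3
  nlinarith

theorem f2b_ii (ρ : G →+* ZMod p) : ρ ii ^ 2 = -1 := by
  have e : ii ^ 2 = -1 := by decide
  rw [← map_pow, e, map_neg, map_one]

theorem Qc.neg_one (h : Qc p z ρ χ) : χ (-1) = ip (2 * ((z.im / 2 : ℤ) : ZMod 4)) := by
  obtain ⟨t, u, h1, _, h3⟩ := h.f2b_data
  refine root_inj h.f2b_two_ne ρ (h.four _ (by simp)) (ip_four _) ?_
  have e1 : z.im / 2 = u := by omega
  have e2 : ((p / 4 : ℕ) : ZMod 4) = (2 * t - u) ^ 2 + (2 * t - u) + u ^ 2 := by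
    have := congrArg (Int.cast : ℤ → ZMod 4) h3
    rw [Int.cast_natCast] at this
    rw [this]; push_cast; ring
  have e3 : ∀ a b : ZMod 4, 2 * b = 2 * ((2 * a - b) ^ 2 + (2 * a - b) + b ^ 2) := by decide
  rw [h.spec, e1, e3 t u, ← e2, ← f2b_ii ρ, ← pow_mul, ← map_pow, ← f2b_ip_nat]
  push_cast
  rfl

theorem Qc.two (h : Qc p z ρ χ) : χ 2 = ip (-((z.im / 2 : ℤ) : ZMod 4)) := by
  obtain ⟨t, u, h1, h2, h3⟩ := h.f2b_data
  refine root_inj h.f2b_two_ne ρ (h.four _ h.f2b_two_ne) (ip_four _) ?_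
  have hp : p.Prime := Fact.out
  have e1 : z.im / 2 = u := by omega
  have e2 : ((p / 4 : ℕ) : ZMod 4) = (2 * t - u) ^ 2 + (2 * t - u) + u ^ 2 := by
    have := congrArg (Int.cast : ℤ → ZMod 4) h3
    rw [Int.cast_natCast] at this
    rw [this]; push_cast; ring
  have hn : (p : ℤ) = z.re ^ 2 + z.im ^ 2 := by
    rw [← h.norm, Zsqrtd.norm_def]; ring
  have cop : IsCoprime z.im z.re := by
    rw [Int.isCoprime_iff_gcd_eq_one, ← Nat.isUnit_iff]
    refine hp.squarefree _ ?_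
    rw [← Int.natCast_dvd_natCast, hn, Nat.cast_mul, pow_two, pow_two]
    exact dvd_add (mul_dvd_mul (Int.gcd_dvd_right _ _) (Int.gcd_dvd_right _ _))
      (mul_dvd_mul (Int.gcd_dvd_left _ _) (Int.gcd_dvd_left _ _))
  have cop' : IsCoprime (z.re - z.im) (z.re + z.im) := by
    obtain ⟨x, y, k⟩ := cop
    refine ⟨-(2 * t) * (y - x), 1 - 2 * t * (x + y), ?_⟩
    have k1 : z.re + z.im = 4 * t + 1 := by omega
    linear_combination k1 - 4 * t * k
  have j1 : jacobiSym z.re p = 1 := by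
    rw [f2b_recip h.mod (by omega)]
    exact f2b_sq cop ⟨z.re, by rw [hn]; ring⟩
  have j2 : jacobiSym (z.re + z.im) p = if t % 2 = 0 then 1 else -1 := by
    rw [f2b_recip h.mod (by omega)]
    have k := f2b_sq (n := 2 * p) cop' ⟨z.re + z.im, by rw [hn]; ring⟩
    rw [jacobiSym.mul_left, jacobiSym.at_two (by rw [Nat.odd_iff]; omega),
      ZMod.χ₈_nat_eq_if_mod_eight, if_neg (by omega)] at k
    by_cases c : t % 2 = 0
    · rw [if_pos (by omega)] at k
      rw [if_pos c]; linarith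
    · rw [if_neg (by omega)] at k
      rw [if_neg c]; linarith
  have hm := h.mod
  have p2 : p / 2 = 2 * (p / 4) := by omega
  have l1 := legendreSym.eq_pow p z.re
  have l2 := legendreSym.eq_pow p (z.re + z.im)
  rw [jacobiSym.legendreSym.to_jacobiSym, j1, p2] at l1
  rw [jacobiSym.legendreSym.to_jacobiSym, j2, p2] at l2
  have z0 : (z.re : ZMod p) + z.im * ρ ii = 0 := by
    have e : z = (z.re : G) + (z.im : G) * ii := by
      ext <;> simp [ii]
    have k := (h.ker z).2 dvd_rfl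
    rw [e, map_add, map_mul, map_intCast, map_intCast] at k
    exact k
  have i2 := f2b_ii ρ
  have s1 : ((z.re + z.im : ℤ) : ZMod p) ^ 2 = 2 * ρ ii * (z.re : ZMod p) ^ 2 := by
    push_cast
    have b : (z.im : ZMod p) = z.re * ρ ii := by
      linear_combination (-ρ ii) * z0 + (z.im : ZMod p) * i2
    rw [b]
    linear_combination (z.re : ZMod p) ^ 2 * i2
  rw [pow_mul, s1, mul_pow, mul_pow, ← pow_mul, ← l1, Int.cast_one, mul_one, ← map_pow,
    ← f2b_ip_nat] at l2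
  have l3 : ρ (ip (2 * (t : ZMod 4))) = 2 ^ (p / 4) * ρ (ip ((p / 4 : ℕ) : ZMod 4)) := by
    rw [← l2, f2b_ip_two]
    split_ifs <;> simp
  have e3 : ∀ a b : ZMod 4, -b = 2 * a + -((2 * a - b) ^ 2 + (2 * a - b) + b ^ 2) := by decide
  rw [h.spec, e1, e3 t u, ← e2, ip_add, map_mul, l3, mul_assoc, ← map_mul, ← ip_add,
    add_neg_cancel, ip_zero, map_one, mul_one]

theorem Qc.supp (h : Qc p z ρ χ) (κ : ZMod 4) :
    star (χ (ck κ : ℤ)) = ip (κ * ((z.im / 2 : ℤ) : ZMod 4)) := by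
  have k1 := h.neg_one
  have k2 := h.two
  generalize ((z.im / 2 : ℤ) : ZMod 4) = u at k1 k2 ⊢
  have c : ∀ κ : ZMod 4, κ = 0 ∨ κ = 1 ∨ κ = 2 ∨ κ = 3 := by decide
  rcases c κ with rfl | rfl | rfl | rfl
  · have e : ck 0 = 1 := by decide
    rw [e, Int.cast_one, map_one, star_one, zero_mul, ip_zero]
  · have e : ck 1 = 2 := by decide
    rw [e, Int.cast_ofNat, k2]
    clear k1 k2
    revert u
    decide
  · have e : ck 2 = -1 := by decide
    rw [e, Int.cast_neg, Int.cast_one, k1]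
    clear k1 k2
    revert u
    decide
  · have e : ck 3 = -1 * 2 := by decide
    rw [e, Int.cast_mul, Int.cast_neg, Int.cast_one, Int.cast_ofNat, map_mul, k1, k2]
    clear k1 k2
    revert u
    decide

end Pool.Agent.Lib.MP_696deb_nt.QF
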