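import Pool.Agent.Lib.MP_696deb_nt.QF.D0

/-! The quartic characters modulo rational primes. -/

set_option autoImplicit false

open scoped Classical Real
open Complex Finset

namespace Pool.Agent.Lib.MP_696deb_nt.QF

theorem f4_ip_nat (n : ℕ) : ip (n : ZMod 4) = ii ^ n := by
  induction n with
  | zero => decide
  | succ n ih =>
    rw [Nat.cast_succ, ip_add, ih, pow_succ]
    congr 1

theorem f4_dvd {q : ℕ} {z : G} : (q : G) ∣ z ↔ (q : ℤ) ∣ z.re ∧ (q : ℤ) ∣ z.im := by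
  rw [← Zsqrtd.intCast_dvd, Int.cast_natCast]

theorem f4_cancel {q : ℕ} (hq : q.Prime) {n : ℤ} (hn : ¬ (q : ℤ) ∣ n) {z : G}
    (h : (q : G) ∣ z * n) : (q : G) ∣ z := by
  have hp := Nat.prime_iff_prime_int.1 hq
  rw [f4_dvd] at h ⊢
  simp only [Zsqrtd.re_mul, Zsqrtd.im_mul, Zsqrtd.re_intCast, Zsqrtd.im_intCast, mul_zero,
    add_zero, zero_add] at h
  exact ⟨(hp.dvd_or_dvd h.1).resolve_right hn, (hp.dvd_or_dvd h.2).resolve_right hn⟩

theorem f4_star {q : ℕ} {z : G} (h : (q : G) ∣ z) : (q : G) ∣ star z := by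
  rw [f4_dvd] at h ⊢
  simpa using h

theorem f4_two {q : ℕ} (hq : q.Prime) (h2 : q ≠ 2) : ¬ (q : ℤ) ∣ 2 := fun h =>
  h2 ((Nat.prime_dvd_prime_iff_eq hq Nat.prime_two).1 (by exact_mod_cast h))

theorem f4_frob {q : ℕ} (hq : q.Prime) (α : G) :
    (q : G) ∣ α ^ q - (α.re + α.im * ii ^ q) := by
  have := Fact.mk hq
  have h1 : ∀ a : ℤ, (q : G) ∣ (a : G) ^ q - a := fun a => by
    have : (q : ℤ) ∣ a ^ q - a := by
      rw [← ZMod.intCast_zmod_eq_zero_iff_dvd]
      simp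
    simpa using map_dvd (Int.castRingHom G) this
  have e : α = α.re + α.im * ii := by ext <;> simp [ii]
  obtain ⟨r, hr⟩ := exists_add_pow_prime_eq hq (α.re : G) (α.im * ii)
  rw [← e] at hr
  have : α ^ q - (α.re + α.im * ii ^ q) = ((α.re : G) ^ q - α.re) +
      ((α.im : G) ^ q - α.im) * ii ^ q + q * (α.re * (α.im * ii) * r) := by
    rw [hr, mul_pow]
    ring
  rw [this]
  exact dvd_add (dvd_add (h1 _) ((h1 _).mul_right _)) (dvd_mul_right _ _)

theorem f4_ex {q : ℕ} (hq : q.Prime) (h2 : q ≠ 2) {w : G} (h : (q : G) ∣ w ^ 4 - star w ^ 4) :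
    ∃ k, (q : G) ∣ w - ip k * star w := by
  have hp := Nat.prime_iff_prime_int.1 hq
  have h1 := (f4_dvd.1 h).2
  have e : (w ^ 4 - star w ^ 4).im =
      2 * (2 * (2 * (w.re * (w.im * ((w.re - w.im) * (w.re + w.im)))))) := by
    simp [pow_succ]
    ring
  have t := f4_two hq h2
  rw [e] at h1
  have h3 := (hp.dvd_or_dvd ((hp.dvd_or_dvd ((hp.dvd_or_dvd h1).resolve_left t)).resolve_left
    t)).resolve_left t
  have i0 : ip 0 = ⟨1, 0⟩ := by decide
  have i1 : ip 1 = ⟨0, 1⟩ := by decide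
  have i2 : ip 2 = ⟨-1, 0⟩ := by decide
  have i3 : ip 3 = ⟨0, -1⟩ := by decide
  rcases hp.dvd_or_dvd h3 with h4 | h4
  · refine ⟨2, f4_dvd.2 ⟨?_, ?_⟩⟩ <;> simp [i2, dvd_add h4 h4]
  rcases hp.dvd_or_dvd h4 with h5 | h5
  · refine ⟨0, f4_dvd.2 ⟨?_, ?_⟩⟩ <;> simp [i0, dvd_add h5 h5]
  rcases hp.dvd_or_dvd h5 with h6 | h6
  · refine ⟨1, f4_dvd.2 ⟨?_, ?_⟩⟩ <;> simp [i1, h6, dvd_sub_comm.1 h6]
  · refine ⟨3, f4_dvd.2 ⟨?_, ?_⟩⟩ <;> simp [i3, h6, add_comm w.im]

theorem f4_uniq {q : ℕ} (hq : q.Prime) (h2 : q ≠ 2) {w : G} (hw : ¬ (q : ℤ) ∣ w.norm)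
    {k l : ZMod 4} (hk : (q : G) ∣ w - ip k * star w) (hl : (q : G) ∣ w - ip l * star w) :
    k = l := by
  have h1 : (q : G) ∣ (ip k - ip l) * (w.norm : ℤ) := by
    have := (dvd_sub hl hk).mul_right w
    rw [Zsqrtd.norm_eq_mul_conj]
    convert this using 1
    ring
  have h3 := f4_cancel hq hw h1
  by_contra hne
  have : ∀ a b : ZMod 4, a ≠ b → (ip a - ip b) * (ip a - ip b) * star (ip a - ip b) *
      star (ip a - ip b) = 4 ∨ (ip a - ip b) * star (ip a - ip b) = 4 := by decide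
  have h4 : (q : G) ∣ 4 := by
    rcases this k l hne with e | e <;> rw [← e]
    · exact ((h3.mul_right _).mul_right _).mul_right _
    · exact h3.mul_right _
  have h5 : (q : ℤ) ∣ 2 * 2 := (f4_dvd.1 h4).1
  exact f4_two hq h2 (((Nat.prime_iff_prime_int.1 hq).dvd_or_dvd h5).elim id id)

theorem f4_ne {q e : ℕ} (hq : q.Prime) (h2 : q ≠ 2) (he : 0 < e) (he' : e + 2 < q) :
    ∃ α : G, ¬ (q : ℤ) ∣ α.norm ∧ ¬ (q : G) ∣ α ^ e - star α ^ e := by
  have := Fact.mk hq
  by_contra hc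
  push Not at hc
  obtain ⟨ι, hι⟩ := IsAlgClosed.exists_eq_mul_self (-1 : AlgebraicClosure (ZMod q))
  let ρ : G →+* AlgebraicClosure (ZMod q) := Zsqrtd.lift ⟨ι, by simpa using hι.symm⟩
  have hρ : ∀ z : G, ρ z = z.re + z.im * ι := fun z => rfl
  have h0 : ∀ z : G, (q : G) ∣ z → ρ z = 0 := by
    rintro _ ⟨c, rfl⟩
    simp
  have hP := Polynomial.eq_zero_of_natDegree_lt_card_of_eval_eq_zero
    (((Polynomial.X + Polynomial.C ι) ^ e - (Polynomial.X - Polynomial.C ι) ^ e) *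
      (Polynomial.X ^ 2 - Polynomial.C (-1)))
    (algebraMap (ZMod q) (AlgebraicClosure (ZMod q))).injective (fun x => ?_) ?_
  · rcases mul_eq_zero.1 hP with h | h
    · have := congrArg (Polynomial.eval ι) h
      simp only [Polynomial.eval_sub, Polynomial.eval_pow, Polynomial.eval_add, Polynomial.eval_X,
        Polynomial.eval_C, sub_self, zero_pow he.ne', sub_zero, Polynomial.eval_zero] at this
      have h3 : ((2 : ℤ) : AlgebraicClosure (ZMod q)) * ι = 0 := by
        rw [← pow_eq_zero_iff he.ne', ← this]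
        congr 1
        push_cast
        ring
      rcases mul_eq_zero.1 h3 with h4 | h4
      · exact f4_two hq h2 ((CharP.intCast_eq_zero_iff _ q 2).1 h4)
      · simp [h4] at hι
    · exact Polynomial.X_pow_sub_C_ne_zero two_pos _ h
  · obtain ⟨a, rfl⟩ := ZMod.intCast_surjective x
    simp only [Polynomial.eval_mul, Polynomial.eval_sub, Polynomial.eval_pow, Polynomial.eval_add,
      Polynomial.eval_X, Polynomial.eval_C, map_intCast, mul_eq_zero]
    by_cases h : (q : ℤ) ∣ (⟨a, 1⟩ : G).norm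
    · right
      have := (CharP.intCast_eq_zero_iff (AlgebraicClosure (ZMod q)) q _).2 h
      rw [← this]
      simp [Zsqrtd.norm_def, sq]
    · left
      have := h0 _ (hc _ h)
      simpa [hρ ⟨a, 1⟩, hρ ⟨a, -1⟩, sub_eq_add_neg] using this
  · rw [ZMod.card]
    refine lt_of_le_of_lt ?_ he'
    refine Polynomial.natDegree_mul_le.trans (add_le_add ?_ Polynomial.natDegree_X_pow_sub_C.le)
    refine (Polynomial.natDegree_sub_le _ _).trans (max_le ?_ ?_)
    · simp [Polynomial.natDegree_pow]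
    · simp [Polynomial.natDegree_pow]

theorem f4_core {q e : ℕ} (hq : q.Prime) (h2 : q ≠ 2)
    (hF : ∀ α : G, ¬ (q : ℤ) ∣ α.norm → (q : G) ∣ (α ^ e) ^ 4 - star (α ^ e) ^ 4) :
    ∃ Y : G → G, (∀ α β, Y (α * β) = Y α * Y β) ∧ Per q Y ∧ (∀ α, (q : ℤ) ∣ α.norm → Y α = 0) ∧
      (∀ α, ¬ (q : ℤ) ∣ α.norm → Y α ^ 4 = 1) ∧ (∀ α, Y (star α) = star (Y α)) ∧
      (∀ n : ℤ, ¬ (q : ℤ) ∣ n → Y n = 1) ∧ Y (1 + ii) = ip e ∧
      ∀ α, ¬ (q : ℤ) ∣ α.norm → (q : G) ∣ α ^ e - Y α * star α ^ e := by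
  have hp := Nat.prime_iff_prime_int.1 hq
  choose! κ hκ using fun α h => f4_ex hq h2 (hF α h)
  simp only [star_pow] at hκ
  have hu : ∀ (α : G) k, ¬ (q : ℤ) ∣ α.norm → (q : G) ∣ α ^ e - ip k * star α ^ e → κ α = k := by
    intro α k h hk
    refine f4_uniq hq h2 (w := α ^ e) (fun h' => h ?_) (by simpa using hκ α h) (by simpa using hk)
    rw [show (α ^ e).norm = α.norm ^ e from map_pow Zsqrtd.normMonoidHom α e] at h'
    exact hp.dvd_of_dvd_pow h'
  refine ⟨fun α => if (q : ℤ) ∣ α.norm then 0 else ip (κ α), fun α β => ?_, fun α γ => ?_,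
    fun α h => if_pos h, fun α h => ?_, fun α => ?_, fun n h => ?_, ?_, fun α h => ?_⟩
  · by_cases ha : (q : ℤ) ∣ α.norm
    · simp [ha, ha.mul_right]
    by_cases hb : (q : ℤ) ∣ β.norm
    · simp [hb, hb.mul_left]
    have hab : ¬ (q : ℤ) ∣ (α * β).norm := fun h => by
      rw [Zsqrtd.norm_mul] at h
      exact (hp.dvd_or_dvd h).elim ha hb
    simp only [ha, hb, hab, if_false]
    rw [← ip_add, hu _ (κ α + κ β) hab]
    have := dvd_add ((hκ α ha).mul_right (β ^ e)) ((hκ β hb).mul_left (ip (κ α) * star α ^ e))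
    convert this using 1
    rw [ip_add, star_mul', mul_pow, mul_pow]
    ring
  · have h1 : (q : ℤ) ∣ (α + q * γ).norm - α.norm :=
      ⟨2 * (α.re * γ.re + α.im * γ.im) + q * γ.norm, by
        simp [Zsqrtd.norm_def]
        ring⟩
    have h3 : (q : ℤ) ∣ (α + q * γ).norm ↔ (q : ℤ) ∣ α.norm := by
      simpa using (dvd_iff_dvd_of_dvd_sub h1)
    by_cases ha : (q : ℤ) ∣ α.norm
    · simp only [h3, ha, if_true]
    have h4 : (q : G) ∣ (α + q * γ) ^ e - α ^ e :=
      dvd_trans (by simp) (sub_dvd_pow_sub_pow _ _ e)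
    have h5 := f4_star h4
    rw [star_sub, star_pow, star_pow] at h5
    simp only [h3, ha, if_false]
    rw [hu _ (κ α) (mt h3.1 ha)]
    have := dvd_add (dvd_sub h4 (h5.mul_left (ip (κ α)))) (hκ α ha)
    convert this using 1
    ring
  · simp only [h, if_false, ip_four]
  · by_cases ha : (q : ℤ) ∣ α.norm
    · simp [ha]
    have hb : ¬ (q : ℤ) ∣ (star α).norm := by rwa [Zsqrtd.norm_conj]
    simp only [ha, hb, if_false]
    rw [← ip_neg, hu _ (-κ α) hb]
    have := f4_star (hκ α ha)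
    rwa [star_sub, star_mul', star_pow, star_pow, ← ip_neg] at this
  · have hb : ¬ (q : ℤ) ∣ ((n : G)).norm := fun h' => by
      rw [Zsqrtd.norm_intCast] at h'
      exact (hp.dvd_or_dvd h').elim h h
    simp only [hb, if_false]
    rw [hu _ 0 hb (by simp [ip_zero]), ip_zero]
  · have hb : ¬ (q : ℤ) ∣ (1 + ii).norm := f4_two hq h2
    simp only [hb, if_false]
    rw [hu _ e hb]
    rw [f4_ip_nat, ← mul_pow, show ii * star (1 + ii) = 1 + ii by decide]
    simp
  · simp only [h, if_false, hκ α h]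

theorem exists_X {q : ℕ} (hq : q.Prime) (h2 : q ≠ 2) : ∃ X, IsX q X := by
  have hodd := hq.eq_two_or_odd.resolve_left h2
  have h1 := hq.two_le
  have i4 : ∀ m, ii ^ (4 * m) = 1 := fun m => by
    rw [pow_mul, show ii ^ 4 = 1 by decide, one_pow]
  by_cases h : q % 4 = 1
  · obtain ⟨e, he⟩ : ∃ e, q = 4 * e + 1 := ⟨q / 4, by omega⟩
    have he' : q / 4 = e := by omega
    have hf : ∀ α : G, (q : G) ∣ α ^ q - α := fun α => by
      have := f4_frob hq α
      rwa [show ii ^ q = ii by rw [he, pow_succ, i4, one_mul],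
        show (α.re + α.im * ii : G) = α by ext <;> simp [ii]] at this
    obtain ⟨Y, a1, a2, a3, a4, a5, a6, a7, a8⟩ := f4_core (e := e) hq h2 fun α ha => by
      refine f4_cancel hq ha ?_
      have := dvd_sub ((hf α).mul_right (star α)) ((hf (star α)).mul_right α)
      rw [Zsqrtd.norm_eq_mul_conj, star_pow]
      convert this using 1
      rw [he]
      ring
    refine ⟨Y, a1, a2, a3, a4, a5, a6, ?_, fun _ => he' ▸ a8, fun h' => by omega, ?_⟩
    · rw [a7, qs, if_pos h, show ((q : ℤ) - 1) / 4 = e by omega, Int.cast_natCast]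
    · obtain ⟨α, ha, hb⟩ := f4_ne (e := e) hq h2 (by omega) (by omega)
      exact ⟨α, ha, fun h' => hb (by simpa [h'] using a8 α ha)⟩
  · obtain ⟨m, he⟩ : ∃ m, q = 4 * m + 3 := ⟨q / 4, by omega⟩
    have he' : q / 4 = m := by omega
    have hf : ∀ α : G, (q : G) ∣ α ^ q - star α := fun α => by
      have := f4_frob hq α
      rwa [show ii ^ q = -ii by rw [he, pow_add, i4, one_mul]; decide,
        show (α.re + α.im * -ii : G) = star α by ext <;> simp [ii]] at this
    obtain ⟨Y, a1, a2, a3, a4, a5, a6, a7, a8⟩ := f4_core (e := m + 1) hq h2 fun α _ => by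
      have := dvd_sub ((hf α).mul_right α) ((hf (star α)).mul_right (star α))
      rw [star_pow]
      convert this using 1
      rw [he, star_star]
      ring
    have b7 : Y (star (1 + ii)) = ip (-((m + 1 : ℕ) : ZMod 4)) := by rw [a5, a7, ip_neg]
    refine ⟨fun α => Y (star α), fun α β => by rw [star_mul', a1], fun α γ => ?_,
      fun α ha => a3 _ (by rwa [Zsqrtd.norm_conj]), fun α ha => a4 _ (by rwa [Zsqrtd.norm_conj]),
      fun α => a5 _, fun n hn => by rw [star_intCast, a6 n hn], ?_, fun h' => absurd h' h,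
      fun _ α ha => ?_, ?_⟩
    · simp only [star_add, star_mul', star_natCast]
      exact a2 _ _
    · rw [b7, qs, if_neg h, show (-(q : ℤ) - 1) / 4 = -((m + 1 : ℕ) : ℤ) by omega, Int.cast_neg,
        Int.cast_natCast]
    · simpa [he'] using a8 (star α) (by rwa [Zsqrtd.norm_conj])
    · rcases Nat.eq_zero_or_pos m with rfl | hm
      · exact ⟨1 + ii, (show (1 + ii).norm = 2 by decide) ▸ f4_two hq h2, by
          simp only [b7]
          decide⟩
      · obtain ⟨α, ha, hb⟩ := f4_ne (e := m + 1) hq h2 (by omega) (by omega)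
        exact ⟨star α, by rwa [Zsqrtd.norm_conj], fun h' => hb (by
          simpa [show Y α = 1 by simpa using h'] using a8 α ha)⟩

end Pool.Agent.Lib.MP_696deb_nt.QF
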