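import Pool.Agent.Lib.MP_696deb_nt.QF.D0

/-! The component at two. -/

set_option autoImplicit false

open scoped Classical Real
open Complex Finset

namespace Pool.Agent.Lib.MP_696deb_nt.QF

theorem f5_par : ∀ x y u v : ZMod 8, (x * u - y * v + (x * v + y * u)).val % 2 = 0 ↔
    ((x + y).val % 2 = 0 ∨ (u + v).val % 2 = 0) := by decide +kernel

theorem f5_add : ∀ x y u v : ZMod 8, ¬ (x + y).val % 2 = 0 → ¬ (u + v).val % 2 = 0 →
    lj (x * u - y * v) (x * v + y * u) = lj x y + lj u v ∧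
      lh (x * u - y * v) (x * v + y * u) = lh x y + lh u v := by decide +kernel

theorem f5_mul (κ K : ZMod 4) (x y u v : ZMod 8) :
    ph8 κ K (x * u - y * v) (x * v + y * u) = ph8 κ K x y * ph8 κ K u v := by
  unfold ph8
  by_cases h1 : (x + y).val % 2 = 0
  · rw [if_pos ((f5_par x y u v).mpr (Or.inl h1)), if_pos h1, zero_mul]
  by_cases h2 : (u + v).val % 2 = 0
  · rw [if_pos ((f5_par x y u v).mpr (Or.inr h2)), if_pos h2, mul_zero]
  obtain ⟨h3, h4⟩ := f5_add x y u v h1 h2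
  rw [if_neg (fun h => ((f5_par x y u v).mp h).elim h1 h2), if_neg h1, if_neg h2, h3, h4,
    ← ip_add]
  congr 1
  ring

theorem f5_conj : ∀ (κ K : ZMod 4) (x y : ZMod 8), ph8 κ K x (-y) = star (ph8 κ K x y) := by
  decide +kernel

theorem f5_bd : ∀ (κ K : ZMod 4) (x y : ZMod 8), (ph8 κ K x y).norm ≤ 1 := by decide +kernel

theorem f5_prim : ∀ (κ K : ZMod 4) (t h : ZMod 8),
    ph8 κ K (4 * t + 1 - 2 * h) (2 * h) = ip (κ * (ZMod.cast h : ZMod 4)) := by decide +kernel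

theorem f5_nat : ∀ (κ K : ZMod 4) (x : ZMod 8), x.val % 2 = 1 →
    ph8 κ K x 0 = if x.val % 4 = 1 then 1 else -1 := by decide +kernel

theorem f5_re_mul (α β : G) :
    (((α * β).re : ℤ) : ZMod 8) = (α.re : ZMod 8) * β.re - (α.im : ZMod 8) * β.im := by
  rw [Zsqrtd.re_mul]
  push_cast
  ring

theorem f5_im_mul (α β : G) :
    (((α * β).im : ℤ) : ZMod 8) = (α.re : ZMod 8) * β.im + (α.im : ZMod 8) * β.re := by
  rw [Zsqrtd.im_mul]
  push_cast
  ring

/-- The rational part of a power of the eighth root of unity. -/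
def f5A (r : ZMod 8) : G := if r.val % 2 = 0 then ii ^ (r.val / 2) else 0

/-- The other part of a power of the eighth root of unity. -/
def f5B (r : ZMod 8) : G := if r.val % 2 = 0 then 0 else ii ^ (r.val / 2)

/-- The two parts of the Gauss sum. -/
def f5S (g : ZMod 8 → G) (κ K : ZMod 4) (a b : ZMod 8) : G :=
  ∑ x ∈ range 8, ∑ y ∈ range 8,
    ph8 κ K (x : ZMod 8) (y : ZMod 8) * g ((x : ZMod 8) * a + (y : ZMod 8) * b)

theorem f5_SB : ∀ (κ K : ZMod 4) (a b : ZMod 8), f5S f5B κ K a b = 0 := by decide +kernel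

theorem f5_SA_zero : ∀ (κ K : ZMod 4) (a b : ZMod 8), κ = 1 ∨ κ = 3 ∨
    (κ = 2 ∧ a.val % 2 = 0 ∧ b.val % 2 = 0) ∨ (κ = 0 ∧ a.val % 2 = 0 ∧ (a + b).val % 4 = 0) ∨
      f5S f5A κ K a b = 0 := by decide +kernel

theorem f5_SA_eq : ∀ (κ K : ZMod 4) (u v : ZMod 8),
    f5S f5A κ K (((nu κ).re : ZMod 8) * u - ((nu κ).im : ZMod 8) * v)
      (((nu κ).re : ZMod 8) * v + ((nu κ).im : ZMod 8) * u) =
        ii * ip (e0 κ K) * 8 * star (nu κ) * ph8 κ K u v := by decide +kernel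

theorem f5_ii : ((ii : G) : ℂ) = I := by
  simp [ii, GaussianInt.toComplex_def']

theorem f5_zeta_sq : cexp (2 * π * I / 8) ^ 2 = I := by
  have h : ((2 : ℕ) : ℂ) * (2 * π * I / 8) = π / 2 * I := by
    push_cast
    ring
  rw [← Complex.exp_nat_mul, h, Complex.exp_pi_div_two_mul_I]

theorem f5_pow (r : ZMod 8) : cexp (2 * π * I / 8) ^ r.val =
    ((f5A r : G) : ℂ) + ((f5B r : G) : ℂ) * cexp (2 * π * I / 8) := by
  have hI : I ^ (r.val / 2) = cexp (2 * π * I / 8) ^ (2 * (r.val / 2)) := by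
    rw [pow_mul, f5_zeta_sq]
  unfold f5A f5B
  by_cases h2 : r.val % 2 = 0
  · rw [if_pos h2, if_pos h2, map_pow, f5_ii, map_zero, zero_mul, add_zero, hI]
    congr 1
    omega
  · rw [if_neg h2, if_neg h2, map_pow, f5_ii, map_zero, zero_add, hI, ← pow_succ]
    congr 1
    omega

theorem f5_exp (n : ℤ) : cexp (2 * π * I * (n : ℂ) / ((8 : ℕ) : ℂ)) =
    cexp (2 * π * I / 8) ^ ((n : ZMod 8)).val := by
  have h1 : (((n : ZMod 8).val : ℕ) : ℤ) = n % 8 := ZMod.val_intCast n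
  have h2 : (n : ℂ) = (((n : ZMod 8).val : ℕ) : ℂ) + 8 * ((n / 8 : ℤ) : ℂ) := by
    have h3 : n = (((n : ZMod 8).val : ℕ) : ℤ) + 8 * (n / 8) := by omega
    exact_mod_cast congrArg (fun z : ℤ => (z : ℂ)) h3
  rw [← Complex.exp_nat_mul, Complex.exp_eq_exp_iff_exists_int]
  refine ⟨n / 8, ?_⟩
  generalize (((n : ZMod 8).val : ℕ) : ℂ) = r at h2 ⊢
  generalize ((n / 8 : ℤ) : ℂ) = s at h2 ⊢
  rw [h2]
  push_cast
  ring

theorem f5_FT (κ K : ZMod 4) (ξ : G) :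
    FT 8 (fun α => (ph2 κ K α : ℂ)) ξ = ((f5S f5A κ K ξ.re ξ.im : G) : ℂ) := by
  have h : FT 8 (fun α => (ph2 κ K α : ℂ)) ξ = ((f5S f5A κ K ξ.re ξ.im : G) : ℂ) +
      ((f5S f5B κ K ξ.re ξ.im : G) : ℂ) * cexp (2 * π * I / 8) := by
    unfold FT f5S
    rw [map_sum, map_sum, Finset.sum_mul, ← Finset.sum_add_distrib]
    refine Finset.sum_congr rfl fun x _ => ?_
    rw [map_sum, map_sum, Finset.sum_mul, ← Finset.sum_add_distrib]
    refine Finset.sum_congr rfl fun y _ => ?_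
    rw [f5_exp, f5_pow, map_mul, map_mul]
    have h1 : ph2 κ K ⟨x, y⟩ = ph8 κ K (x : ZMod 8) (y : ZMod 8) := by
      unfold ph2
      rw [Int.cast_natCast, Int.cast_natCast]
    have h2 : (((x : ℤ) * ξ.re + (y : ℤ) * ξ.im : ℤ) : ZMod 8) =
        (x : ZMod 8) * ξ.re + (y : ZMod 8) * ξ.im := by
      push_cast
      rfl
    beta_reduce
    rw [h1, h2]
    ring
  rw [h, f5_SB, map_zero, zero_mul, add_zero]

variable (κ K : ZMod 4)

theorem ph2_per : Per 8 (ph2 κ K) := by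
  intro α γ
  have h8 : (8 : ZMod 8) = 0 := by decide
  unfold ph2
  rw [Zsqrtd.re_add, Zsqrtd.im_add, Int.cast_add, Int.cast_add, f5_re_mul, f5_im_mul,
    Zsqrtd.re_natCast, Zsqrtd.im_natCast]
  push_cast
  rw [h8]
  simp

theorem ph2_mul (α β : G) : ph2 κ K (α * β) = ph2 κ K α * ph2 κ K β := by
  unfold ph2
  rw [f5_re_mul, f5_im_mul, f5_mul]

theorem ph2_conj (α : G) : ph2 κ K (star α) = star (ph2 κ K α) := by
  unfold ph2
  rw [Zsqrtd.re_star, Zsqrtd.im_star, Int.cast_neg, f5_conj]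

theorem ph2_zero {α : G} (h : (2 : ℤ) ∣ α.norm) : ph2 κ K α = 0 := by
  have h1 : (2 : ℤ) ∣ α.re + α.im := by
    rw [Zsqrtd.norm_def] at h
    have h2 : (2 : ℤ) ∣ (α.re + α.im) ^ 2 := by
      have : (α.re + α.im) ^ 2 = (α.re * α.re - -1 * α.im * α.im) + 2 * (α.re * α.im) := by ring
      rw [this]
      exact dvd_add h (dvd_mul_right _ _)
    exact Int.prime_two.dvd_of_dvd_pow h2
  have h3 : ((((α.re + α.im : ℤ) : ZMod 8).val : ℕ) : ℤ) = (α.re + α.im) % 8 :=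
    ZMod.val_intCast _
  rw [Int.cast_add] at h3
  unfold ph2 ph8
  rw [if_pos (by omega)]

theorem ph2_bd (α : G) : (ph2 κ K α).norm ≤ 1 := f5_bd _ _ _ _

theorem ph2_ii : ph2 κ K ii = ip (2 * K - 1) := by
  revert κ K
  decide +kernel

theorem ph2_prim {α : G} (h : Prim α) : ph2 κ K α = ip (κ * ((α.im / 2 : ℤ) : ZMod 4)) := by
  obtain ⟨h1, h2⟩ := h
  have h3 : α.im = 2 * (α.im / 2) := by omega
  have h4 : α.re = 4 * ((α.re + α.im) / 4) + 1 - 2 * (α.im / 2) := by omega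
  unfold ph2
  generalize α.im / 2 = s at h3 h4 ⊢
  generalize (α.re + α.im) / 4 = t at h4
  rw [h3, h4]
  push_cast
  rw [f5_prim, ZMod.cast_intCast (by decide : 4 ∣ 8)]

theorem ph2_nat {n : ℕ} (h : Odd n) : ph2 κ K n = if n % 4 = 1 then 1 else -1 := by
  have h1 := Nat.odd_iff.mp h
  have h2 : (n : ZMod 8).val = n % 8 := ZMod.val_natCast _ _
  unfold ph2
  rw [Zsqrtd.re_natCast, Zsqrtd.im_natCast, Int.cast_natCast, Int.cast_zero,
    f5_nat κ K _ (by omega), h2, show n % 8 % 4 = n % 4 by omega]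

theorem ph2_sd : SD 8 (fun α => (ph2 κ K α : ℂ)) (nu κ) (ip (e0 κ K) : ℂ) := by
  refine ⟨fun ξ hξ => ?_, fun η => ?_⟩
  · rw [f5_FT]
    have h1 : ((((ξ.re : ℤ) : ZMod 8).val : ℕ) : ℤ) = ξ.re % 8 := ZMod.val_intCast _
    have h2 : ((((ξ.im : ℤ) : ZMod 8).val : ℕ) : ℤ) = ξ.im % 8 := ZMod.val_intCast _
    have h3 : ((((ξ.re + ξ.im : ℤ) : ZMod 8).val : ℕ) : ℤ) = (ξ.re + ξ.im) % 8 :=
      ZMod.val_intCast _
    rw [Int.cast_add] at h3
    rcases f5_SA_zero κ K ξ.re ξ.im with h | h | ⟨h, ha, hb⟩ | ⟨h, ha, hb⟩ | h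
    · subst h
      exact absurd (one_dvd ξ) hξ
    · subst h
      exact absurd (one_dvd ξ) hξ
    · subst h
      refine absurd ⟨⟨ξ.re / 2, ξ.im / 2⟩, ?_⟩ hξ
      have hn : nu 2 = ⟨2, 0⟩ := by decide
      rw [hn]
      ext
      · rw [Zsqrtd.re_mul]
        dsimp only
        omega
      · rw [Zsqrtd.im_mul]
        dsimp only
        omega
    · subst h
      refine absurd ⟨⟨(ξ.re + ξ.im) / 4, (ξ.im - ξ.re) / 4⟩, ?_⟩ hξ
      have hn : nu 0 = ⟨2, 2⟩ := by decide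
      rw [hn]
      ext
      · rw [Zsqrtd.re_mul]
        dsimp only
        omega
      · rw [Zsqrtd.im_mul]
        dsimp only
        omega
    · rw [h, map_zero]
  · rw [f5_FT, f5_re_mul, f5_im_mul, f5_SA_eq, map_mul, map_mul, map_mul, map_mul, f5_ii,
      map_ofNat]
    rfl

end Pool.Agent.Lib.MP_696deb_nt.QF
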