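import Pool.Agent.Lib.MP_696deb_nt.QF.F2
import Pool.Agent.Lib.MP_696deb_nt.QF.F2b
import Pool.Agent.Lib.MP_696deb_nt.QF.F4
import Pool.Agent.Lib.MP_696deb_nt.QF.F4b
import Pool.Agent.Lib.MP_696deb_nt.QF.F5

/-! The Hecke character of the curve. -/

set_option autoImplicit false

open scoped Classical Real
open Complex Finset

namespace Pool.Agent.Lib.MP_696deb_nt.QF

theorem f8_abs (q : ℕ) : (qs q).natAbs = q := by
  unfold qs
  split_ifs <;> simp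

theorem exists_fac {D : ℤ} (hD : Squarefree D) : ∃ (κ : ZMod 4) (Q : Finset ℕ),
    (∀ q ∈ Q, q.Prime ∧ q ≠ 2) ∧ D = ck κ * ∏ q ∈ Q, qs q := by
  have h1 := Nat.prod_primeFactors_of_squarefree (Int.squarefree_natAbs.2 hD)
  have h2 : ∀ Q : Finset ℕ, (∏ q ∈ Q, qs q).natAbs = ∏ q ∈ Q, q := fun Q =>
    (map_prod Int.natAbsHom _ _).trans (prod_congr rfl fun q _ => f8_abs q)
  have h3 : ∀ q ∈ D.natAbs.primeFactors.erase 2, q.Prime ∧ q ≠ 2 := fun q hq =>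
    ⟨Nat.prime_of_mem_primeFactors (mem_of_mem_erase hq), ne_of_mem_erase hq⟩
  by_cases h : 2 ∈ D.natAbs.primeFactors
  · rw [← mul_prod_erase _ _ h, ← h2, show 2 = (2 : ℤ).natAbs from rfl, ← Int.natAbs_mul] at h1
    rcases Int.natAbs_eq_natAbs_iff.1 h1.symm with e | e
    · exact ⟨1, _, h3, e⟩
    · exact ⟨3, _, h3, e.trans (neg_mul _ _).symm⟩
  · rw [← erase_eq_of_notMem h, ← h2] at h1
    rcases Int.natAbs_eq_natAbs_iff.1 h1.symm with e | e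
    · exact ⟨0, _, h3, e.trans (one_mul _).symm⟩
    · exact ⟨2, _, h3, e.trans (neg_one_mul _).symm⟩

/-- The exponent attached to an odd prime. -/
def f8k (q : ℕ) : ZMod 4 := ((qs q - 1) / 4 : ℤ)

/-- The sign of the prime discriminant. -/
def f8s (q : ℕ) : ℤ := if q % 4 = 1 then 1 else -1

theorem f8_qs (q : ℕ) : qs q = f8s q * q := by
  unfold qs f8s
  split_ifs <;> simp

theorem f8_ndvd {q p : ℕ} (hq : q.Prime) (hp : p.Prime) (h : q ≠ p) : ¬ (q : ℤ) ∣ (p : ℤ) :=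
  fun e => h ((Nat.prime_dvd_prime_iff_eq hq hp).1 (Int.natCast_dvd_natCast.1 e))

theorem f8_per {β : Type} {m M : ℕ} {f : G → β} (h : Per m f) (e : m ∣ M) : Per M f := by
  obtain ⟨c, rfl⟩ := e
  intro α γ
  rw [Nat.cast_mul, mul_assoc, h]

theorem f8_ip (Q : Finset ℕ) (f : ℕ → ZMod 4) :
    ∏ q ∈ Q, star (ip (f q)) = ip (-∑ q ∈ Q, f q) := by
  induction Q using Finset.induction_on with
  | empty => rw [prod_empty, sum_empty, neg_zero, ip_zero]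
  | insert a s ha ih => rw [prod_insert ha, sum_insert ha, ih, neg_add, ip_add, ip_neg (f a)]

theorem f8_mod (Q : Finset ℕ) (hQ : ∀ q ∈ Q, q.Prime ∧ q ≠ 2) :
    ∃ t : ℤ, ∏ q ∈ Q, qs q = 4 * t + 1 ∧ (t : ZMod 4) = ∑ q ∈ Q, f8k q := by
  induction Q using Finset.induction_on with
  | empty => exact ⟨0, by simp, by simp⟩
  | insert a s ha ih =>
    obtain ⟨t, h1, h2⟩ := ih fun q hq => hQ q (mem_insert_of_mem hq)
    obtain ⟨a1, a2⟩ := hQ a (mem_insert_self a s)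
    have a3 := a1.eq_two_or_odd.resolve_left a2
    have a4 : qs a = 4 * ((qs a - 1) / 4) + 1 := by
      unfold qs
      split_ifs <;> omega
    refine ⟨4 * ((qs a - 1) / 4 * t) + (qs a - 1) / 4 + t, ?_, ?_⟩
    · rw [prod_insert ha, h1]
      linear_combination (4 * t + 1) * a4
    · rw [sum_insert ha, ← h2, f8k, Int.cast_add, Int.cast_add, Int.cast_mul,
        show ((4 : ℤ) : ZMod 4) = 0 from rfl, zero_mul, zero_add]

section X
variable {q : ℕ} {X : G → G}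

theorem IsX.nat (h : IsX q X) (hq : q.Prime) {p : ℕ} (hp : p.Prime) (e : q ≠ p) : X p = 1 := by
  simpa using h.int p (f8_ndvd hq hp e)

theorem IsX.one (h : IsX q X) (hq : q.Prime) : X 1 = 1 := by
  simpa using h.int 1 fun e => hq.one_lt.ne' (Nat.dvd_one.1 (Int.natCast_dvd_natCast.1 e))

theorem IsX.at_ii (h : IsX q X) (hq : q.Prime) (h2 : q ≠ 2) : X ii = ip (2 * f8k q) := by
  have e : (1 + ii) * (1 + ii) = ((2 : ℕ) : G) * ii := by decide
  have k := h.mul (1 + ii) (1 + ii)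
  rw [e, h.mul, h.nat hq Nat.prime_two h2, one_mul, h.one_add, ← ip_add, ← two_mul] at k
  exact k

theorem IsX.at_nu (h : IsX q X) (hq : q.Prime) (h2 : q ≠ 2) (κ : ZMod 4) :
    X (ii * nu κ) = ip ((if κ = 0 then 3 else 2) * f8k q) := by
  have e : (⟨2, 2⟩ : G) = ((2 : ℕ) : G) * (1 + ii) := by decide
  have e2 : (2 : G) = ((2 : ℕ) : G) := rfl
  rw [h.mul, h.at_ii hq h2, nu]
  split_ifs
  · rw [e, h.mul, h.nat hq Nat.prime_two h2, one_mul, h.one_add, ← f8k, ← ip_add]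
    congr 1
    ring
  · rw [e2, h.nat hq Nat.prime_two h2, mul_one]
  · rw [h.one hq, mul_one]

theorem IsX.bd (h : IsX q X) (α : G) : (star (X α)).norm ≤ 1 := by
  rw [Zsqrtd.norm_conj]
  by_cases e : (q : ℤ) ∣ α.norm
  · rw [h.zero α e, Zsqrtd.norm_zero]
    exact zero_le_one
  · have k : (X α).norm ^ 4 = 1 := by
      exact (map_pow Zsqrtd.normMonoidHom (X α) 4).symm.trans
        ((congrArg _ (h.four α e)).trans (map_one _))
    exact ((pow_eq_one_iff_of_nonneg (GaussianInt.norm_nonneg _) (by norm_num)).1 k).le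

end X

/-- The character. -/
def f8phi (κ K : ZMod 4) (X : ℕ → G → G) (Q : Finset ℕ) (α : G) : G :=
  ph2 κ K α * ∏ q ∈ Q, star (X q α)

section phi
variable (κ K : ZMod 4) {X : ℕ → G → G} {Q : Finset ℕ}
  (hQ : ∀ q ∈ Q, q.Prime ∧ q ≠ 2 ∧ IsX q (X q))
include hQ

theorem f8phi_mul (α β : G) : f8phi κ K X Q (α * β) = f8phi κ K X Q α * f8phi κ K X Q β := by
  unfold f8phi
  rw [ph2_mul, prod_congr rfl fun q hq => by rw [(hQ q hq).2.2.mul, star_mul'], prod_mul_distrib]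
  ring

theorem f8phi_nat {p : ℕ} (hp : p.Prime) (h2 : p ≠ 2) (h : p ∉ Q) :
    f8phi κ K X Q p = f8s p := by
  unfold f8phi f8s
  rw [ph2_nat κ K (hp.odd_of_ne_two h2), prod_eq_one fun q hq => by
    rw [(hQ q hq).2.2.nat (hQ q hq).1 hp fun e => h (e ▸ hq), star_one], mul_one]
  split_ifs <;> simp

theorem f8phi_per : Per (8 * ∏ q ∈ Q, q) (f8phi κ K X Q) := fun α γ => by
  unfold f8phi
  rw [f8_per (ph2_per κ K) (dvd_mul_right _ _), prod_congr rfl fun q hq => by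
    rw [f8_per (hQ q hq).2.2.per ((dvd_prod_of_mem _ hq).mul_left 8)]]

theorem f8phi_sd : SD (8 * ∏ q ∈ Q, q) (fun α => (f8phi κ K X Q α : ℂ)) (nu κ)
    ((ip (e0 κ K) * ∏ q ∈ Q, f8s q * star (X q (ii * nu κ)) : G) : ℂ) := by
  induction Q using Finset.induction_on with
  | empty => simpa [f8phi] using ph2_sd κ K
  | insert a s ha ih =>
    have hs := fun q hq => hQ q (mem_insert_of_mem hq)
    obtain ⟨a1, a2, a3⟩ := hQ a (mem_insert_self a s)
    have h0 : 0 < 8 * ∏ q ∈ s, q := Nat.mul_pos (by norm_num) (prod_pos fun q hq => (hs q hq).1.pos)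
    have h1 : ¬ a ∣ 8 * ∏ q ∈ s, q := fun e => by
      rcases (Nat.Prime.dvd_mul a1).1 e with e | e
      · exact a2 ((Nat.prime_dvd_prime_iff_eq a1 Nat.prime_two).1
          (a1.dvd_of_dvd_pow (n := 3) e))
      · obtain ⟨q, hq, e⟩ := a1.prime.exists_mem_finset_dvd e
        exact ha (((Nat.prime_dvd_prime_iff_eq a1 (hs q hq).1).1 e) ▸ hq)
    have k := SD.mul h0 a1 h1 (s := ((f8s a : G) : ℂ)) (ih hs)
      (fun α γ => congrArg _ (f8phi_per κ K hs α γ))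
      (fun α => by rw [f8phi_mul κ K hs, f8phi_nat κ K hs a1 a2 ha, map_mul]) a3
    convert k using 1
    · rw [prod_insert ha]
      ring
    · funext α
      rw [← map_mul, f8phi, f8phi, prod_insert ha]
      congr 1
      ring
    · rw [← map_mul, ← map_mul, prod_insert ha]
      congr 1
      ring

end phi

theorem f8_sign (κ : ZMod 4) (t σ : ℤ) (h : σ = 1 ∧ 0 < 4 * t + 1 ∨ σ = -1 ∧ 4 * t + 1 < 0)
    {D : ℤ} (hD : D = ck κ * (4 * t + 1))
    (hW : ¬ (0 < D ↔ D % 16 = 1 ∨ D % 16 = 3 ∨ D % 16 = 11 ∨ D % 16 = 13)) :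
    ip (e0 κ t) * (σ * ip (-((if κ = 0 then 3 else 2) * t))) = -1 := by
  have h4 : ((t % 4 : ℤ) : ZMod 4) = t := ZMod.intCast_mod t 4
  have hk : ∀ κ : ZMod 4, κ = 0 ∧ ck κ = 1 ∨ κ = 1 ∧ ck κ = 2 ∨ κ = 2 ∧ ck κ = -1 ∨
    κ = 3 ∧ ck κ = -2 := by decide
  rw [← h4]
  rcases hk κ with ⟨rfl, e⟩ | ⟨rfl, e⟩ | ⟨rfl, e⟩ | ⟨rfl, e⟩ <;> rw [e] at hD <;>
    rcases (by omega : t % 4 = 0 ∨ t % 4 = 1 ∨ t % 4 = 2 ∨ t % 4 = 3) with r | r | r | r <;>
    rcases h with ⟨rfl, h⟩ | ⟨rfl, h⟩ <;> rw [r] <;> first | decide | (exfalso; omega)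

theorem exists_phi {D : ℤ} (hD : Squarefree D) : ∃ (φ : G → G) (M : ℕ) (ν : G) (w : ℂ),
    Gch (2 * D) φ ∧ 0 < M ∧ Per M φ ∧ ν ≠ 0 ∧ w ≠ 0 ∧ SD M (fun α => (φ α : ℂ)) ν w ∧
    (¬ (0 < D ↔ D % 16 = 1 ∨ D % 16 = 3 ∨ D % 16 = 11 ∨ D % 16 = 13) → w = -1) ∧
    ∀ (p : ℕ) [Fact p.Prime] (z : G) (ρ : G →+* ZMod p) (χ : MulChar (ZMod p) G), Qc p z ρ χ →
      ¬ (p : ℤ) ∣ D → φ z = star (χ D) := by
  obtain ⟨κ, Q, hQ0, hF⟩ := exists_fac hD
  have hX : ∀ q : ℕ, ∃ X, q ∈ Q → IsX q X := fun q => by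
    by_cases h : q ∈ Q
    · exact (exists_X (hQ0 q h).1 (hQ0 q h).2).imp fun _ k _ => k
    · exact ⟨id, fun k => absurd k h⟩
  choose X hX using hX
  have hQ : ∀ q ∈ Q, q.Prime ∧ q ≠ 2 ∧ IsX q (X q) := fun q h => ⟨(hQ0 q h).1, (hQ0 q h).2, hX q h⟩
  obtain ⟨t, t1, t2⟩ := f8_mod Q hQ0
  have hdvd : ∀ q ∈ Q, (q : ℤ) ∣ D := fun q h => by
    rw [hF]
    exact ((Dvd.intro_left _ (f8_qs q).symm).trans (dvd_prod_of_mem _ h)).mul_left _
  have hσ : ∏ q ∈ Q, f8s q = 1 ∨ ∏ q ∈ Q, f8s q = -1 :=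
    prod_induction _ (fun x => x = 1 ∨ x = -1)
      (by rintro a b (rfl | rfl) (rfl | rfl) <;> simp) (Or.inl rfl) fun q _ => by
        unfold f8s
        split_ifs <;> simp
  have hP : (0 : ℤ) < ∏ q ∈ Q, (q : ℤ) := prod_pos fun q h => by exact_mod_cast (hQ0 q h).1.pos
  have hPσ : 4 * t + 1 = (∏ q ∈ Q, f8s q) * ∏ q ∈ Q, (q : ℤ) := by
    rw [← t1, ← prod_mul_distrib]
    exact prod_congr rfl fun q _ => f8_qs q
  have hW : (ip (e0 κ t) * ∏ q ∈ Q, f8s q * star (X q (ii * nu κ)) : G) =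
      ip (e0 κ t) * ((∏ q ∈ Q, f8s q : ℤ) * ip (-((if κ = 0 then 3 else 2) * t))) := by
    rw [prod_congr rfl fun q h => by rw [(hX q h).at_nu (hQ0 q h).1 (hQ0 q h).2],
      prod_mul_distrib, f8_ip, ← mul_sum, ← t2, Int.cast_prod]
  have hip : ∀ k : ZMod 4, ip k ≠ 0 := by decide
  refine ⟨f8phi κ t X Q, _, nu κ, _, ⟨?_, f8phi_mul κ t hQ, ?_, fun α => ?_, fun p hp h α e => ?_,
    dvd_mul_right _ _, fun p hp h => ?_, fun α => ?_⟩,
    Nat.mul_pos (by norm_num) (prod_pos fun q hq => (hQ0 q hq).1.pos), f8phi_per κ t hQ,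
    (by decide : ∀ κ, nu κ ≠ 0) κ, ?_, f8phi_sd κ t hQ, fun h => ?_, fun p _ z ρ χ h hp => ?_⟩
  · have := ph2_nat κ t (n := 1) odd_one
    rw [Nat.cast_one, if_pos rfl] at this
    rw [f8phi, this, one_mul]
    exact prod_eq_one fun q h => by rw [(hX q h).one (hQ0 q h).1, star_one]
  · rw [f8phi, ph2_ii, prod_congr rfl fun q h => by
      rw [(hX q h).at_ii (hQ0 q h).1 (hQ0 q h).2], f8_ip, ← mul_sum, ← t2]
    exact (by decide : ∀ K : ZMod 4, ip (2 * K - 1) * ip (-(2 * K)) * ii = 1) _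
  · rw [f8phi, f8phi, star_mul', star_prod, ph2_conj,
      prod_congr rfl fun q h => by rw [(hX q h).conj]]
  · by_cases h2 : p = 2
    · subst h2
      rw [f8phi, ph2_zero κ t e, zero_mul]
    · have hp' : Prime (p : ℤ) := Nat.prime_iff_prime_int.1 hp
      have k2 : ¬ (p : ℤ) ∣ 2 := f8_ndvd hp Nat.prime_two h2
      rw [hF] at h
      obtain ⟨q, hq, k⟩ := hp'.exists_mem_finset_dvd ((hp'.dvd_or_dvd
        ((hp'.dvd_or_dvd h).resolve_left k2)).resolve_left fun k =>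
          k2 (k.trans ((by decide : ∀ κ, ck κ ∣ 2) κ)))
      obtain rfl : p = q := (Nat.prime_dvd_prime_iff_eq hp (hQ0 q hq).1).1 (by
        simpa [f8_abs] using Int.natAbs_dvd_natAbs.2 k)
      rw [f8phi, prod_eq_zero hq (by rw [(hX p hq).zero α e, star_zero]), mul_zero]
  · rw [f8phi_nat κ t hQ hp (fun e => h (e ▸ dvd_mul_right _ _))
      fun e => h ((hdvd p e).mul_left 2), f8_qs, Int.cast_mul, Int.cast_natCast]
  · have k : ∀ a b : G, a.norm ≤ 1 → b.norm ≤ 1 → (a * b).norm ≤ 1 := fun a b ha hb => by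
      rw [Zsqrtd.norm_mul]
      exact mul_le_one₀ ha (GaussianInt.norm_nonneg _) hb
    exact k _ _ (ph2_bd κ t α) (prod_induction _ (fun x : G => x.norm ≤ 1) k
      Zsqrtd.norm_one.le fun q h => (hX q h).bd α)
  · rw [hW, Ne, GaussianInt.toComplex_eq_zero]
    refine mul_ne_zero (hip _) (mul_ne_zero ?_ (hip _))
    rcases hσ with e | e <;> rw [e] <;> decide
  · rw [hW, f8_sign κ t _ ?_ (t1 ▸ hF) h, map_neg, map_one]
    rcases hσ with e | e <;> rw [e] at hPσ ⊢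
    · exact Or.inl ⟨rfl, by linarith⟩
    · exact Or.inr ⟨rfl, by linarith⟩
  · rw [f8phi, ph2_prim κ t h.prim, ← h.supp, hF, Int.cast_mul, Int.cast_prod, map_mul, map_prod,
      star_mul', star_prod]
    congr 1
    exact prod_congr rfl fun q hq => by
      rw [h.recip (hQ0 q hq).1 (hQ0 q hq).2 (fun e => hp (e ▸ hdvd q hq)) (hX q hq)]

end Pool.Agent.Lib.MP_696deb_nt.QF
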