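import Pool.Agent.Lib.MP_696deb_nt.QF.F3
import Pool.Agent.Lib.MP_696deb_nt.QF.F7
import Pool.Agent.Lib.MP_696deb_nt.QF.F8

/-! Analytic continuation and the central zero. -/

set_option autoImplicit false

open scoped Classical Real
open Complex Finset

namespace Pool.Agent.Lib.MP_696deb_nt.QF

theorem fe {D : ℤ} (hD : Squarefree D) : ∃ F : ℂ → ℂ, Differentiable ℂ F ∧
    (∀ s : ℂ, (3 : ℝ) / 2 < s.re → HasProd (fun p : ℕ =>
      if p.Prime ∧ ¬ ((p : ℤ) ∣ 2 * (-4 * (-D) ^ 3 - 27 * 0 ^ 2)) then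
        (1 - ((p : ℂ) - (cnt D p : ℂ)) * (p : ℂ) ^ (-s) + (p : ℂ) ^ (1 - 2 * s))⁻¹ else 1) (F s)) ∧
    (¬ (0 < D ↔ D % 16 = 1 ∨ D % 16 = 3 ∨ D % 16 = 11 ∨ D % 16 = 13) → F 1 = 0) := by
  obtain ⟨φ, M, ν, w, h1, h2, h3, h4, h5, h6, h7, h8⟩ := exists_phi hD
  obtain ⟨a, a1, a2, a3, a4⟩ := h1.hecke
  obtain ⟨l, l1, l2⟩ := th_fe h2 (f := fun α => (φ α : ℂ)) (fun α γ => congrArg _ (h3 α γ)) h4 h6
  obtain ⟨L, b1, b2, b3⟩ := analytic (f := fun α => (φ α : ℂ)) (a := fun n => 1 * (a n : ℂ))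
    (fun α => by
      have k : ((φ α).norm : ℝ) ≤ 1 := by exact_mod_cast h1.bd α
      rw [GaussianInt.intCast_real_norm, Complex.normSq_eq_norm_sq] at k
      exact (sq_le_one_iff₀ (norm_nonneg _)).1 k) l1 h5 l2 fun n => by
      simpa [map_ofNat] using congrArg GaussianInt.toComplex (a2 n)
  have m0 : 2 * (-4 * (-D) ^ 3 - 27 * 0 ^ 2) ≠ 0 := by
    have := hD.ne_zero
    rw [show 2 * (-4 * (-D) ^ 3 - 27 * 0 ^ 2) = 8 * D ^ 3 by ring]
    positivity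
  refine ⟨fun s => (∏ p ∈ (2 * (-4 * (-D) ^ 3 - 27 * 0 ^ 2)).natAbs.primeFactors,
    loc (fun _ => 1) a (fun p => if (p : ℤ) ∣ 2 * D then 0 else p) p s) * L s,
    (Differentiable.fun_finsetProd fun p hp =>
      loc_differentiable _ _ _ (Nat.mem_primeFactors.mp hp).1.ne_zero).mul b1, fun s hs => ?_,
    fun k => by simp only [b3 (h7 k), mul_zero]⟩
  simp only [(b2 s hs).2]
  refine hasProd_frozen a1 rfl (fun _ _ => (mul_one _).symm) (b2 s hs).1 m0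
    (fun p => (p : ℂ) - (cnt D p : ℂ)) fun p hp k => ?_
  have := Fact.mk hp
  have k1 : ¬ (p : ℤ) ∣ 2 * D := fun e => k (e.trans ⟨4 * D ^ 2, by ring⟩)
  refine ⟨?_, one_pow 2, if_neg k1⟩
  have k2 : p ≠ 2 := fun e => k1 (e ▸ dvd_mul_right _ _)
  have k3 := hp.eq_two_or_odd.resolve_left k2
  rw [one_mul]
  rcases (by omega : p % 4 = 1 ∨ p % 4 = 3) with e | e
  · obtain ⟨z, ρ, χ, hq⟩ := exists_qc e
    have k4 : ¬ (p : ℤ) ∣ D := fun e => k1 (e.mul_left 2)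
    have k5 := a4 p z hp e hq.norm
    rw [h8 p z ρ χ hq k4, star_mul', star_star, ← hq.count k4, Int.cast_inj] at k5
    rw [k5]
    push_cast
    rfl
  · rw [a3 p hp e, count_three e, sub_self, Int.cast_zero]

end Pool.Agent.Lib.MP_696deb_nt.QF
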