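import Pool.Agent.Lib.MP_696deb_nt.QF.F1

/-! Quartic reciprocity for a rational prime. -/

set_option autoImplicit false

open scoped Classical Real
open Complex Finset

namespace Pool.Agent.Lib.MP_696deb_nt.QF

section Gauss
variable {R F : Type} [Field R] [Fintype R] [Field F]

theorem f2_inv {c : MulChar R F} (hc : c ≠ 1) {ψ : AddChar R F} (hψ : ψ.IsPrimitive) :
    gaussSum c ψ * gaussSum c⁻¹ ψ = c (-1) * Fintype.card R := by
  rw [← mul_gaussSum_inv_eq_gaussSum c⁻¹, mul_left_comm, gaussSum_mul_gaussSum_eq_card hc hψ,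
    MulChar.inv_apply', inv_neg_one]

theorem f2_four {c : MulChar R F} (h4 : c ^ 4 = 1) (h2 : c ^ 2 ≠ 1) {ψ : AddChar R F}
    (hψ : ψ.IsPrimitive) (hR : (Fintype.card R : F) ≠ 0) :
    gaussSum c ψ ^ 4 = Fintype.card R * jacobiSum c (c ^ 2) ^ 2 := by
  have h1 : c ≠ 1 := fun h => h2 (by rw [h, one_pow])
  have h3 : c * c ^ 2 = c⁻¹ := eq_inv_of_mul_eq_one_left (by rw [← h4]; group)
  have h5 : (c ^ 2)⁻¹ = c ^ 2 := inv_eq_of_mul_eq_one_left (by rw [← h4]; group)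
  have h6 : c (-1) * c (-1) = 1 := by rw [← map_mul, neg_mul_neg, one_mul, map_one]
  have a1 := jacobiSum_mul_nontrivial (χ := c) (φ := c ^ 2) (by rw [h3]; exact inv_ne_one.2 h1) ψ
  have a2 := f2_inv h1 hψ
  have a3 := f2_inv h2 hψ
  rw [h5, MulChar.pow_apply' _ two_ne_zero, sq (c (-1)), h6, one_mul] at a3
  rw [h3] at a1
  have a4 : gaussSum c ψ ^ 2 * gaussSum (c ^ 2) ψ =
      c (-1) * Fintype.card R * jacobiSum c (c ^ 2) := by
    rw [← a2, mul_assoc, a1]; ring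
  refine mul_right_cancel₀ hR ?_
  calc _ = (gaussSum c ψ ^ 2 * gaussSum (c ^ 2) ψ) ^ 2 := by rw [← a3]; ring
    _ = c (-1) * c (-1) * (Fintype.card R * jacobiSum c (c ^ 2) ^ 2 * Fintype.card R) := by
      rw [a4]; ring
    _ = _ := by rw [h6, one_mul]

theorem f2_frob (q : ℕ) [Fact q.Prime] [CharP F q] (hq : (q : R) ≠ 0) (c : MulChar R F)
    (ψ : AddChar R F) : gaussSum c ψ ^ q = (c ^ q)⁻¹ (q : R) * gaussSum (c ^ q) ψ := by
  rw [gaussSum_frob, AddChar.pow_mulShift]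
  exact gaussSum_mulShift_eq (c ^ q) ψ (Units.mk0 _ hq)

end Gauss

variable {p : ℕ} [Fact p.Prime] {z : G} {ρ : G →+* ZMod p} {χ : MulChar (ZMod p) G}

theorem f2_main (h : Qc p z ρ χ) {q : ℕ} (hq : q.Prime) (h2 : q ≠ 2) (hp : q ≠ p) {X : G → G}
    (hX : IsX q X) (F : Type) [Field F] [IsAlgClosed F] [CharP F q] : χ (qs q : ℤ) = X z := by
  have := Fact.mk hq
  have hpp : p.Prime := Fact.out
  have hqp : ¬ q ∣ p := fun k => hp ((Nat.prime_dvd_prime_iff_eq hq hpp).1 k)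
  have hpq : (q : ZMod p) ≠ 0 := fun k =>
    hp ((Nat.prime_dvd_prime_iff_eq hpp hq).1 ((ZMod.natCast_eq_zero_iff _ _).1 k)).symm
  have hpF : (p : F) ≠ 0 := fun k => hqp ((CharP.cast_eq_zero_iff F q p).1 k)
  have : NeZero (p : F) := ⟨hpF⟩
  have h2F : (2 : F) ≠ 0 := fun k => h2 ((Nat.prime_dvd_prime_iff_eq hq Nat.prime_two).1
    ((CharP.cast_eq_zero_iff F q 2).1 (by exact_mod_cast k)))
  obtain ⟨ι, hι⟩ := IsAlgClosed.exists_pow_nat_eq (-1 : F) two_pos
  obtain ⟨σ, hσ⟩ : ∃ σ : G →+* F, ∀ a, σ a = a.re + a.im * ι :=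
    ⟨Zsqrtd.lift ⟨ι, by rw [← sq, hι]; simp⟩, fun _ => rfl⟩
  obtain ⟨ζ, hζ⟩ := HasEnoughRootsOfUnity.exists_primitiveRoot F p
  have hψ := AddChar.zmodChar_primitive_of_primitive_root p hζ
  set ψ := AddChar.zmodChar p ((IsPrimitiveRoot.iff_def ζ p).mp hζ).left
  set c : MulChar (ZMod p) F := χ.ringHomComp σ with hc
  have hca : ∀ x, c x = σ (χ x) := fun _ => rfl
  have c4 : c ^ 4 = 1 := MulChar.ext fun a => by
    rw [MulChar.pow_apply_coe, hca, ← map_pow, h.four _ a.ne_zero, map_one, MulChar.one_apply_coe]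
  have c2 : c ^ 2 ≠ 1 := fun k => h.sq_ne (MulChar.ext fun a => by
    have k1 := congrArg (fun t : MulChar (ZMod p) F => t a) k
    simp only [MulChar.pow_apply_coe, MulChar.one_apply_coe, hca] at k1 ⊢
    refine root_inj h2F σ ?_ (one_pow 4) (by rw [map_pow, k1, map_one])
    rw [← pow_mul, mul_comm, pow_mul, h.four _ a.ne_zero, one_pow])
  have c1 : c ≠ 1 := fun k => c2 (by rw [k, one_pow])
  have hcard : (Fintype.card (ZMod p) : F) = p := by rw [ZMod.card]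
  have hZW : σ z * σ (star z) = p := by
    rw [← map_mul, ← Zsqrtd.norm_eq_mul_conj, h.norm, Int.cast_natCast, map_natCast]
  have hZ : σ z ≠ 0 := left_ne_zero_of_mul (hZW ▸ hpF)
  have hW : σ (star z) ≠ 0 := right_ne_zero_of_mul (hZW ▸ hpF)
  have g0 : gaussSum c ψ ≠ 0 := gaussSum_ne_zero_of_nontrivial (hcard ▸ hpF) c1 hψ
  have g4 : gaussSum c ψ ^ 4 = σ z ^ 3 * σ (star z) := by
    rw [f2_four c4 c2 hψ (hcard ▸ hpF), hcard, hc, MulChar.ringHomComp_pow,
      jacobiSum_ringHomComp, h.jac, map_neg, ← hZW]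
    ring
  have gq := f2_frob q hpq c ψ
  have hfr : σ z ^ q = z.re + z.im * ι ^ q := by
    rw [hσ, ← frobenius_def, map_add, map_mul, map_intCast, map_intCast, frobenius_def]
  have hnz : ¬ (q : ℤ) ∣ z.norm := by rw [h.norm]; exact_mod_cast hqp
  have hdv : ∀ a b : G, (q : G) ∣ a - b → σ a = σ b := by
    rintro a b ⟨t, ht⟩
    rw [← sub_eq_zero, ← map_sub, ht, map_mul, map_natCast, CharP.cast_eq_zero, zero_mul]
  have hι4 : ι ^ 4 = 1 := by rw [show 4 = 2 * 2 from rfl, pow_mul, hι]; ring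
  have hqs : ((qs q : ℤ) : ZMod p) ≠ 0 := by
    rw [qs]
    split_ifs
    · simpa using hpq
    · simpa using hpq
  refine root_inj h2F σ (h.four _ hqs) (hX.four _ hnz) ?_
  rw [← hca]
  have hodd := hq.eq_two_or_odd.resolve_left h2
  by_cases h1 : q % 4 = 1
  · have sp := hdv _ _ (hX.spec1 h1 z hnz)
    rw [map_mul, map_pow, map_pow] at sp
    obtain ⟨k, hk⟩ : ∃ k, q / 4 = k := ⟨_, rfl⟩
    have e : q = 4 * k + 1 := by omega
    rw [hk] at sp
    have cq : c ^ q = c := by rw [e, pow_succ, pow_mul, c4, one_pow, one_mul]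
    have iq : ι ^ q = ι := by rw [e, pow_succ, pow_mul, hι4, one_pow, one_mul]
    rw [iq, ← hσ] at hfr
    have z4 : σ z ^ (4 * k) = 1 := mul_right_cancel₀ hZ (by rw [← pow_succ, ← e, hfr, one_mul])
    have ci : c (q : ZMod p) * c⁻¹ (q : ZMod p) = 1 := by
      rw [← MulChar.mul_apply, mul_inv_cancel, MulChar.one_apply hpq.isUnit]
    have g5 : (σ z ^ 3 * σ (star z)) ^ k = c⁻¹ (q : ZMod p) :=
      mul_right_cancel₀ g0 (by rw [← g4, ← pow_mul, ← pow_succ, ← e, gq, cq])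
    rw [qs, if_pos h1, Int.cast_natCast]
    refine mul_right_cancel₀ (pow_ne_zero k hW) ?_
    rw [← sp]
    calc _ = c (q : ZMod p) * (σ z ^ (4 * k) * σ (star z) ^ k) := by rw [z4, one_mul]
      _ = c (q : ZMod p) * (σ z ^ 3 * σ (star z)) ^ k * σ z ^ k := by ring
      _ = _ := by rw [g5, ci, one_mul]
  · have sp := hdv _ _ (hX.spec3 (by omega) z hnz)
    rw [map_mul, map_pow, map_pow] at sp
    obtain ⟨k, hk⟩ : ∃ k, q / 4 = k := ⟨_, rfl⟩
    have e : q = 4 * k + 3 := by omega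
    have e' : 4 * (k + 1) = q + 1 := by omega
    rw [hk] at sp
    have cq : c ^ q = c⁻¹ :=
      eq_inv_of_mul_eq_one_left (by rw [← pow_succ, ← e', pow_mul, c4, one_pow])
    have iq : ι ^ q = -ι := by
      rw [e, pow_add, pow_mul, hι4, one_pow, one_mul, pow_succ, hι, neg_one_mul]
    have hfr' : σ z ^ q = σ (star z) := by
      rw [hfr, iq, hσ, Zsqrtd.re_star, Zsqrtd.im_star, Int.cast_neg]; ring
    have z4 : σ z ^ (4 * (k + 1)) = σ z * σ (star z) := by rw [e', pow_succ', hfr']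
    have g5 : (σ z ^ 3 * σ (star z)) ^ (k + 1) = c (-(q : ZMod p)) * (σ z * σ (star z)) := by
      rw [← g4, ← pow_mul, e', pow_succ', gq, cq, inv_inv, mul_left_comm, f2_inv c1 hψ, hcard,
        ← mul_assoc, ← map_mul, mul_neg_one, hZW]
    rw [qs, if_neg h1, Int.cast_neg, Int.cast_natCast]
    refine mul_right_cancel₀ (pow_ne_zero (k + 1) hZ) ?_
    rw [← sp]
    refine mul_right_cancel₀ (mul_ne_zero hZ hW) ?_
    calc _ = c (-(q : ZMod p)) * (σ z * σ (star z)) * σ z ^ (k + 1) := by ring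
      _ = σ (star z) ^ (k + 1) * σ z ^ (4 * (k + 1)) := by rw [← g5]; ring
      _ = _ := by rw [z4]

theorem Qc.recip (h : Qc p z ρ χ) {q : ℕ} (hq : q.Prime) (h2 : q ≠ 2) (hp : q ≠ p) {X : G → G}
    (hX : IsX q X) : χ (qs q : ℤ) = X z :=
  have := Fact.mk hq
  f2_main h hq h2 hp hX (AlgebraicClosure (ZMod q))

end Pool.Agent.Lib.MP_696deb_nt.QF
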