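import Pool.Agent.Lib.MP_696deb_nt.QF.D0
import Pool.Agent.Lib.MP_696deb_nt.Euler

/-! The coefficients of a Hecke character satisfy the Hecke relations. -/

set_option autoImplicit false

open scoped Classical Real
open Complex Finset

namespace Pool.Agent.Lib.MP_696deb_nt.QF

theorem f3_prime {p : ℕ} (hp : p.Prime) {z : G} (hz : z.norm = p) : Prime z := by
  have : IsLocalHom (Zsqrtd.normMonoidHom (d := -1)) :=
    ⟨fun a h => (Zsqrtd.isUnit_iff_norm_isUnit a).2 h⟩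
  refine (Irreducible.of_map (f := Zsqrtd.normMonoidHom (d := -1)) ?_).prime
  exact (show Zsqrtd.normMonoidHom z = p from hz) ▸ (Nat.prime_iff_prime_int.1 hp).irreducible

theorem f3_mul {p : ℕ} {z : G} (hz : z.norm = p) : z * star z = p := by
  rw [← Zsqrtd.norm_eq_mul_conj, hz, Int.cast_natCast]

theorem f3_star {z α : G} (h : z ∣ star α) : star z ∣ α := by
  obtain ⟨β, e⟩ := h
  exact ⟨star β, by rw [← star_mul', ← e, star_star]⟩

theorem f3_both {p : ℕ} (hp : p.Prime) (h4 : p % 4 = 1) {z α : G} (hz : z.norm = p) :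
    z ∣ α ∧ star z ∣ α ↔ (p : G) ∣ α := by
  refine ⟨?_, fun h => ⟨(Dvd.intro _ (f3_mul hz)).trans h,
    (Dvd.intro_left _ (f3_mul hz)).trans h⟩⟩
  rintro ⟨⟨β, rfl⟩, h⟩
  rw [← f3_mul hz]
  refine mul_dvd_mul_left _ (((f3_prime hp ((Zsqrtd.norm_conj z).trans hz)).dvd_or_dvd
    h).resolve_left fun k => ?_)
  have k1 := mul_dvd_mul_left z k
  rw [f3_mul hz, ← Int.cast_natCast, Zsqrtd.intCast_dvd, Zsqrtd.re_mul] at k1
  rw [Zsqrtd.norm_def] at hz
  have hq := Nat.prime_iff_prime_int.1 hp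
  have key : ∀ a : ℤ, (p : ℤ) ∣ 2 * (a * a) → (p : ℤ) ∣ a := fun a k => by
    refine (hq.dvd_or_dvd k).elim (fun e => ?_) fun e => (hq.dvd_or_dvd e).elim id id
    have := Nat.le_of_dvd two_pos (Int.natCast_dvd_natCast.1 e)
    have := hp.two_le
    omega
  obtain ⟨a, ha⟩ := key z.re ((k1.1.add dvd_rfl).trans (Eq.dvd (by linarith)))
  obtain ⟨b, hb⟩ := key z.im ((dvd_rfl.sub k1.1).trans (Eq.dvd (by linarith)))
  refine hq.not_dvd_one ⟨a * a + b * b, mul_left_cancel₀ hq.ne_zero ?_⟩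
  rw [ha, hb] at hz
  linarith

section
variable {ψ : G → G} (hψ : ∀ α β, ψ (α * β) = ψ α * ψ β)
include hψ

theorem f3_div {k : ℕ} (hk : k ≠ 0) {w : G} (hw : w.norm = k) (m : ℕ) :
    ∑ α ∈ (reps (k * m)).filter (w ∣ ·), ψ α = ψ w * ∑ α ∈ reps m, ψ α := by
  have k0 : (k : ℤ) ≠ 0 := by exact_mod_cast hk
  have w0 : w ≠ 0 := fun e => k0 (by rw [← hw, e, Zsqrtd.norm_zero])
  rw [mul_sum]
  refine (sum_bij (fun α _ => w * α) (fun α h => ?_) (fun _ _ _ _ e => mul_left_cancel₀ w0 e)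
    (fun α h => ?_) fun α _ => (hψ _ _).symm).symm
  · refine mem_filter.2 ⟨mem_reps.2 ?_, Dvd.intro _ rfl⟩
    rw [Zsqrtd.norm_mul, hw, mem_reps.1 h, Nat.cast_mul]
  · obtain ⟨h, β, rfl⟩ := mem_filter.1 h
    rw [mem_reps, Zsqrtd.norm_mul, hw, Nat.cast_mul] at h
    exact ⟨β, mem_reps.2 (mul_left_cancel₀ k0 h), rfl⟩

theorem f3_divp {p : ℕ} (hp : p ≠ 0) (n : ℕ) :
    ∑ α ∈ (reps (p * n)).filter ((p : G) ∣ ·), ψ α =
      if p ∣ n then ψ p * ∑ α ∈ reps (n / p), ψ α else 0 := by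
  have e : (p : G).norm = (p * p : ℕ) := by rw [Zsqrtd.norm_natCast, Nat.cast_mul]
  split_ifs with h
  · obtain ⟨m, rfl⟩ := h
    rw [← mul_assoc, f3_div hψ (mul_ne_zero hp hp) e, Nat.mul_div_cancel_left _ hp.bot_lt]
  · refine sum_eq_zero fun α hα => absurd ?_ h
    obtain ⟨h, β, rfl⟩ := mem_filter.1 hα
    rw [mem_reps, Zsqrtd.norm_mul, e] at h
    exact Nat.dvd_of_mul_dvd_mul_left hp.bot_lt (Int.natCast_dvd_natCast.1 ⟨_, h.symm⟩)

theorem f3_three {p : ℕ} (hp : p.Prime) (h4 : p % 4 = 3) (n : ℕ) :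
    ∑ α ∈ reps (p * n), ψ α = if p ∣ n then ψ p * ∑ α ∈ reps (n / p), ψ α else 0 := by
  have := Fact.mk hp
  rw [← f3_divp hψ hp.ne_zero, filter_true_of_mem fun α hα => ?_]
  have h := ((GaussianInt.prime_iff_mod_four_eq_three_of_nat_prime p).2 h4).dvd_or_dvd
    (Dvd.intro (n : G) (by rw [f3_mul (mem_reps.1 hα), Nat.cast_mul]))
  exact h.elim id fun k => by simpa using f3_star k

theorem f3_one {p : ℕ} (hp : p.Prime) (h4 : p % 4 = 1) {z : G} (hz : z.norm = p) (n : ℕ) :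
    ∑ α ∈ reps (p * n), ψ α + (if p ∣ n then ψ p * ∑ α ∈ reps (n / p), ψ α else 0) =
      (ψ z + ψ (star z)) * ∑ α ∈ reps n, ψ α := by
  rw [add_mul, ← f3_div hψ hp.ne_zero hz, ← f3_div hψ hp.ne_zero ((Zsqrtd.norm_conj z).trans hz),
    ← sum_union_inter, ← filter_or, ← filter_and, ← f3_divp hψ hp.ne_zero,
    filter_congr fun α _ => f3_both hp h4 hz,
    filter_true_of_mem (p := fun α => _ ∨ _) fun α hα => ?_]
  exact ((f3_prime hp hz).dvd_or_dvd (Dvd.intro (star z * n)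
    (by rw [f3_mul (mem_reps.1 hα), ← mul_assoc, f3_mul hz, Nat.cast_mul]))).imp_right f3_star

end

theorem Gch.hecke {M : ℤ} {φ : G → G} (h : Gch M φ) : ∃ a : ℕ → ℤ,
    Hecke a (fun p => if (p : ℤ) ∣ M then 0 else p) ∧
    (∀ n, ∑ α ∈ reps n, φ α * α = 4 * (a n : G)) ∧
    (∀ p : ℕ, p.Prime → p % 4 = 3 → a p = 0) ∧
    ∀ (p : ℕ) (z : G), p.Prime → p % 4 = 1 → z.norm = p →
      (a p : G) = φ z * z + star (φ z * z) := by
  have hψ : ∀ α β, φ (α * β) * (α * β) = φ α * α * (φ β * β) := fun α β => by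
    rw [h.mul, mul_mul_mul_comm]
  have hs : ∀ z, φ (star z) * star z = star (φ z * z) := fun z => by rw [h.conj, star_mul']
  have s1 : ∑ α ∈ reps 1, φ α * α = 4 := by
    rw [show reps 1 = {1, ii, ii * ii, ii * ii * ii} by decide,
      sum_congr rfl (g := fun _ => 1) fun α hα => ?_]
    · decide
    · simp only [mem_insert, mem_singleton] at hα
      rcases hα with rfl | rfl | rfl | rfl <;> simp only [hψ, h.unit, h.one, mul_one]
  have rel : ∀ p : ℕ, p.Prime → ∃ T : ℤ, ∀ n, ∑ α ∈ reps (p * n), φ α * α + (if p ∣ n then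
      ((if (p : ℤ) ∣ M then 0 else p : ℤ) : G) * ∑ α ∈ reps (n / p), φ α * α else 0) =
      T * ∑ α ∈ reps n, φ α * α := fun p hp => by
    by_cases hM : (p : ℤ) ∣ M
    · refine ⟨0, fun n => ?_⟩
      rw [sum_eq_zero fun α hα => ?_]
      · simp [hM]
      · rw [h.zero p hp hM α (by rw [mem_reps.1 hα]; exact_mod_cast Dvd.intro _ rfl), zero_mul]
    have h2 := hp.eq_two_or_odd.resolve_left fun e => hM (by rw [e]; exact h.two)
    have h3 := h.int p hp hM
    rw [if_neg hM]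
    by_cases h4 : p % 4 = 1
    · have := Fact.mk hp
      obtain ⟨a, b, e⟩ := Nat.Prime.sq_add_sq (p := p) (by omega)
      have hz : (⟨a, b⟩ : G).norm = p := by
        rw [Zsqrtd.norm_def, ← e]
        push_cast
        ring
      refine ⟨2 * (φ ⟨a, b⟩ * ⟨a, b⟩).re, fun n => ?_⟩
      rw [qs, if_pos h4] at h3
      rw [← h3, f3_one (ψ := fun α => φ α * α) hψ hp h4 hz, hs]
      generalize φ ⟨a, b⟩ * ⟨a, b⟩ = x
      congr 1
      ext <;> simp [two_mul]
    · refine ⟨0, fun n => ?_⟩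
      rw [qs, if_neg h4] at h3
      rw [f3_three (ψ := fun α => φ α * α) hψ hp (by omega), h3]
      split_ifs <;> simp
  have ex : ∀ n, ∃ a : ℤ, ∑ α ∈ reps n, φ α * α = 4 * (a : G) := fun n => by
    induction n using Nat.strong_induction_on with
    | _ n ih =>
      rcases n.eq_zero_or_pos with rfl | h0
      · exact ⟨0, by rw [show reps 0 = {0} by decide]; simp⟩
      by_cases h1 : n = 1
      · exact ⟨1, by rw [h1, s1]; simp⟩
      obtain ⟨p, hp, m, rfl⟩ := Nat.exists_prime_and_dvd h1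
      have h2 : m < p * m := lt_mul_of_one_lt_left (Nat.pos_of_mul_pos_left h0) hp.one_lt
      obtain ⟨T, hT⟩ := rel p hp
      obtain ⟨a, ha⟩ := ih m h2
      obtain ⟨b, hb⟩ := ih (m / p) ((Nat.div_le_self _ _).trans_lt h2)
      refine ⟨T * a - if p ∣ m then (if (p : ℤ) ∣ M then 0 else p) * b else 0, ?_⟩
      rw [eq_sub_of_add_eq (hT m), ha, hb]
      split_ifs <;> push_cast <;> ring
  choose a ha using ex
  have inj : ∀ {x y : G}, 4 * x = 4 * y → x = y := mul_left_cancel₀ (by decide)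
  have a1 : a 1 = 1 := by exact_mod_cast inj ((ha 1).symm.trans (s1.trans (mul_one _).symm))
  refine ⟨a, ⟨a1, fun p hp n _ => ?_⟩, ha, fun p hp h4 => ?_, fun p z hp h4 hz => inj ?_⟩
  · obtain ⟨T, hT⟩ := rel p hp
    have e1 := hT 1
    have e2 := hT n
    rw [if_neg hp.not_dvd_one, mul_one, add_zero, s1, ha, mul_comm (T : G)] at e1
    rw [← inj e1, ha, ha, ha] at e2
    refine Int.cast_injective (α := G) (inj ?_)
    split_ifs at e2 ⊢ <;> push_cast at e2 ⊢ <;> linear_combination e2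
  · have e := f3_three (ψ := fun α => φ α * α) hψ hp h4 1
    rw [if_neg hp.not_dvd_one, mul_one, ha] at e
    exact_mod_cast inj (e.trans (mul_zero _).symm)
  · have e := f3_one (ψ := fun α => φ α * α) hψ hp h4 hz 1
    rwa [if_neg hp.not_dvd_one, mul_one, add_zero, ha, s1, hs, mul_comm _ 4] at e

end Pool.Agent.Lib.MP_696deb_nt.QF
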