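import Pool.Agent.Lib.MP_696deb_nt.QF.D0

/-! The functional equation of the theta series. -/

set_option autoImplicit false

open scoped Classical Real
open Complex Finset HurwitzZeta

namespace Pool.Agent.Lib.MP_696deb_nt.QF

theorem f6_mul {f g : ℤ → ℂ} {s t : ℂ} (hf : HasSum f s) (hg : HasSum g t) :
    HasSum (fun α : G => f α.re * g α.im) (s * t) :=
  (Equiv.hasSum_iff (f := fun p : ℤ × ℤ => f p.1 * g p.2)
    ⟨fun α : G => (α.re, α.im), fun p => ⟨p.1, p.2⟩, fun _ => rfl, fun _ => rfl⟩).2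
    (hf.mul hg (summable_mul_of_summable_norm (summable_norm_iff.2 hf.summable)
      (summable_norm_iff.2 hg.summable)))

theorem f6_norm (α : G) : ((α.norm : ℤ) : ℝ) = (α.re : ℝ) ^ 2 + (α.im : ℝ) ^ 2 := by
  rw [Zsqrtd.norm_def]
  push_cast
  ring

theorem f6_left (a b : ℝ) {x : ℝ} (hx : 0 < x) :
    HasSum (fun γ : G => (((γ.re + a : ℝ) : ℂ) + ((γ.im + b : ℝ) : ℂ) * I) *
      (Real.exp (-π * x * ((γ.re + a) ^ 2 + (γ.im + b) ^ 2)) : ℝ))
      (oddKernel a x * evenKernel b x + I * (evenKernel a x * oddKernel b x)) := by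
  convert (f6_mul (hasSum_ofReal.2 (hasSum_int_oddKernel a hx))
    (hasSum_ofReal.2 (hasSum_int_evenKernel b hx))).add
    ((f6_mul (hasSum_ofReal.2 (hasSum_int_evenKernel a hx))
      (hasSum_ofReal.2 (hasSum_int_oddKernel b hx))).mul_left I) using 2 with γ
  rw [show -π * x * ((γ.re + a) ^ 2 + (γ.im + b) ^ 2) =
    -π * (γ.re + a) ^ 2 * x + -π * (γ.im + b) ^ 2 * x by ring, Real.exp_add]
  simp only [ofReal_mul]
  ring

theorem f6_right (a b : ℝ) {x : ℝ} (hx : 0 < x) :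
    HasSum (fun ξ : G => cexp (2 * π * I * (a * ξ.re + b * ξ.im)) * (ξ : ℂ) *
      (Real.exp (-π * x * (ξ.norm : ℝ)) : ℝ))
      (I * (sinKernel a x * cosKernel b x + I * (cosKernel a x * sinKernel b x))) := by
  refine (((f6_mul (hasSum_int_sinKernel a hx) (hasSum_int_cosKernel b hx)).add ((f6_mul
    (hasSum_int_cosKernel a hx) (hasSum_int_sinKernel b hx)).mul_left I)).mul_left I).congr_fun
    fun ξ => ?_
  rw [f6_norm, show -π * x * ((ξ.re : ℝ) ^ 2 + (ξ.im : ℝ) ^ 2) =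
    -π * (ξ.re : ℝ) ^ 2 * x + -π * (ξ.im : ℝ) ^ 2 * x by ring, Real.exp_add, ofReal_mul, mul_add,
    exp_add, GaussianInt.toComplex_def, ← mul_assoc _ (a : ℂ), ← mul_assoc _ (b : ℂ)]
  generalize cexp (2 * π * I * a * ξ.re) = A
  generalize cexp (2 * π * I * b * ξ.im) = B
  generalize ((Real.exp (-π * (ξ.re : ℝ) ^ 2 * x) : ℝ) : ℂ) = C
  generalize ((Real.exp (-π * (ξ.im : ℝ) ^ 2 * x) : ℝ) : ℂ) = D
  linear_combination A * B * C * D * (ξ.re + ξ.im * I) * I_mul_I

theorem f6_fe (a b : ℝ) {x : ℝ} (hx : 0 < x) :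
    (oddKernel a x * evenKernel b x + I * (evenKernel a x * oddKernel b x) : ℂ) =
      1 / x ^ 2 * (sinKernel a (1 / x) * cosKernel b (1 / x) +
        I * (cosKernel a (1 / x) * sinKernel b (1 / x))) := by
  have h : ((x ^ (3 / 2 : ℝ) : ℝ) : ℂ) * (x ^ (1 / 2 : ℝ) : ℝ) = x ^ 2 := by
    rw [← ofReal_mul, ← Real.rpow_add hx]
    norm_num
  simp only [oddKernel_functional_equation _ x, evenKernel_functional_equation _ x, ofReal_mul,
    ofReal_div, ofReal_one, ← h]
  ring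

theorem f6_split {M : ℕ} (hM : 0 < M) {F : G → ℂ} {s : ℕ → ℕ → ℂ}
    (h : ∀ x y : ℕ, HasSum (fun γ : G => F (⟨x, y⟩ + M * γ)) (s x y)) :
    HasSum F (∑ x ∈ range M, ∑ y ∈ range M, s x y) := by
  have M0 : (M : ℤ) ≠ 0 := by omega
  have key : ∀ x ∈ range M, ∀ y ∈ range M,
      HasSum (fun α : G => if α.re % M = x ∧ α.im % M = y then F α else 0) (s x y) :=
    fun x hx y hy => by
      rw [mem_range] at hx hy
      refine (Function.Injective.hasSum_iff (g := fun γ : G => (⟨x, y⟩ + M * γ : G))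
        (fun a b e => mul_left_cancel₀ (Nat.cast_ne_zero.2 hM.ne') (add_left_cancel e))
        fun α hα => if_neg fun k => hα ⟨⟨α.re / M, α.im / M⟩, ?_⟩).1 ?_
      · ext
        · simp [← k.1, Int.emod_add_mul_ediv]
        · simp [← k.2, Int.emod_add_mul_ediv]
      · convert h x y using 2 with γ
        refine if_pos ?_
        simp [Int.emod_eq_of_lt, hx, hy]
  convert hasSum_sum fun x hx => hasSum_sum (key x hx) using 2 with α
  have h1 := Int.emod_nonneg α.re M0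
  have h2 := Int.emod_nonneg α.im M0
  have h3 := Int.emod_lt_of_pos α.re (b := M) (by omega)
  have h4 := Int.emod_lt_of_pos α.im (b := M) (by omega)
  rw [sum_eq_single_of_mem (α.re % M).toNat (mem_range.2 (by omega))
    fun x _ hx => sum_eq_zero fun y _ => if_neg (by omega),
    sum_eq_single_of_mem (α.im % M).toNat (mem_range.2 (by omega))
    fun y _ hy => if_neg (by omega), if_pos (by omega)]

theorem summable_th {f : G → ℂ} {C : ℝ} (bd : ∀ α, ‖f α‖ ≤ C) {t : ℝ} (ht : 0 < t) :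
    Summable fun α : G => ‖f α * (α : ℂ) * (Real.exp (-π * t * (α.norm : ℝ)) : ℝ)‖ := by
  refine .of_nonneg_of_le (fun _ => norm_nonneg _) (fun α => ?_)
    ((summable_norm_iff.2 (f6_left 0 0 ht).summable).mul_left C)
  rw [mul_assoc, norm_mul, f6_norm, GaussianInt.toComplex_def]
  simp only [add_zero, ofReal_intCast]
  exact mul_le_mul_of_nonneg_right (bd α) (norm_nonneg _)

theorem poisson {M : ℕ} (hM : 0 < M) {f : G → ℂ} (per : Per M f) {t : ℝ} (ht : 0 < t) :
    th f t = -I / (M ^ 3 * t ^ 2) * th (FT M f) (1 / (M ^ 2 * t)) := by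
  have M0 : (M : ℝ) ≠ 0 := by positivity
  have M1 : (M : ℂ) ≠ 0 := by exact_mod_cast hM.ne'
  have t1 : (t : ℂ) ≠ 0 := by exact_mod_cast ht.ne'
  have hx : (0 : ℝ) < M ^ 2 * t := by positivity
  have h1 := f6_split hM (F := fun α => f α * (α : ℂ) * (Real.exp (-π * t * (α.norm : ℝ)) : ℝ))
    fun x y => ((f6_left (x / M) (y / M) hx).mul_left (f ⟨x, y⟩ * M)).congr_fun fun γ => by
      rw [per, f6_norm, GaussianInt.toComplex_def, mul_assoc, mul_assoc (f _), ← mul_assoc (M : ℂ)]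
      congr 2
      · simp [-GaussianInt.intCast_re, -GaussianInt.intCast_im]
        field_simp
        ring
      · congr 2
        simp
        field_simp
        ring
  have h2 := hasSum_sum (s := range M) fun (x : ℕ) _ => hasSum_sum (s := range M) fun (y : ℕ) _ =>
    (f6_right (x / M) (y / M) (one_div_pos.2 hx)).mul_left (f ⟨x, y⟩)
  rw [th, th, h1.tsum_eq, (h2.congr_fun fun ξ => ?_).tsum_eq]
  · simp only [mul_sum, f6_fe _ _ hx]
    refine sum_congr rfl fun x _ => sum_congr rfl fun y _ => ?_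
    generalize (_ + _ : ℂ) = K
    push_cast
    field_simp
    linear_combination (f ⟨x, y⟩ * K) * I_mul_I
  · simp only [FT, sum_mul, mul_assoc]
    refine sum_congr rfl fun x _ => sum_congr rfl fun y _ => ?_
    congr 3
    push_cast
    ring

theorem th_fe {M : ℕ} (hM : 0 < M) {f : G → ℂ} (per : Per M f) {ν : G} (hν : ν ≠ 0) {w : ℂ}
    (h : SD M f ν w) : ∃ l : ℝ, 0 < l ∧ ∀ t : ℝ, 0 < t → th f (l / t) = w * t ^ 2 * th f (l * t) := by
  have M0 : (0 : ℝ) < M := by positivity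
  have n0 : (0 : ℝ) < ν.norm := by exact_mod_cast GaussianInt.norm_pos.2 hν
  obtain ⟨l, l0, hl⟩ : ∃ l : ℝ, 0 < l ∧ (ν.norm : ℝ) = M ^ 2 * l ^ 2 :=
    ⟨√ν.norm / M, by positivity, by rw [div_pow, Real.sq_sqrt n0.le]; field_simp⟩
  refine ⟨l, l0, fun t ht => ?_⟩
  have M1 : (M : ℂ) ≠ 0 := by exact_mod_cast hM.ne'
  have t1 : (t : ℂ) ≠ 0 := by exact_mod_cast ht.ne'
  have l1 : (l : ℂ) ≠ 0 := by exact_mod_cast l0.ne'
  have e : ((star ν : G) : ℂ) * ν = M ^ 2 * l ^ 2 := by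
    rw [← GaussianInt.toComplex_mul, mul_comm, ← Zsqrtd.norm_eq_mul_conj, map_intCast]
    exact_mod_cast congrArg ofReal hl
  rw [poisson hM per (div_pos l0 ht), th, th, ← (mul_right_injective₀ hν).tsum_eq fun ξ hξ => ?_,
    ← tsum_mul_left, ← tsum_mul_left]
  · refine tsum_congr fun η => ?_
    rw [h.eq, Zsqrtd.norm_mul, Int.cast_mul, hl, GaussianInt.toComplex_mul,
      show -π * (1 / (M ^ 2 * (l / t))) * (M ^ 2 * l ^ 2 * (η.norm : ℝ)) = -π * (l * t) * η.norm by
        field_simp]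
    generalize ((Real.exp _ : ℝ) : ℂ) = K
    push_cast
    field_simp
    linear_combination (-w * f η * η * K * I ^ 2) * e - (w * f η * η * K * M ^ 2 * l ^ 2) * I_mul_I
  · by_contra k
    exact hξ (by simp only [h.zero ξ fun ⟨η, e⟩ => k ⟨η, e.symm⟩, zero_mul])

end Pool.Agent.Lib.MP_696deb_nt.QF
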